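import Mathlib

/-!
# Symmetric functions, Jack polynomials, Schur functions

Symmetric functions over a field `F` of characteristic zero are modelled by the polynomial ring
`F[p₁, p₂, …]` in the power sums; the variable `X i` is `p_{i+1}`.  `inVars N` realises a
symmetric function as a polynomial in `N` variables `x₁, …, x_N`.
-/

namespace Pool.Agent.Lib.MP_e60a9a_co

open MvPolynomial

/-- The ring of symmetric functions over `F`, as the polynomial ring in the power sums:
the variable `X i` stands for `p_{i+1}`. -/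
abbrev SymF (F : Type) [Field F] : Type := MvPolynomial ℕ F

variable {F : Type} [Field F]

/-- The symmetric function in `N` variables: `p_{i+1} ↦ x₁^{i+1} + ⋯ + x_N^{i+1}`. -/
noncomputable def inVars (N : ℕ) : SymF F →ₐ[F] MvPolynomial (Fin N) F :=
  aeval fun i => psum (Fin N) F (i + 1)

/-- `z_λ = ∏_r r^{m_r} m_r!` where `c i = m_{i+1}` is the number of parts equal to `i + 1`. -/
def zFac (c : ℕ →₀ ℕ) : ℕ := c.prod fun i k => (i + 1) ^ k * k.factorial

/-- The bilinear form `⟨p_λ, p_ν⟩_β = δ_{λν} z_λ β^{ℓ(λ)}`.  For `β = 1` it is the Hall inner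
product. -/
noncomputable def pair (β : F) (f g : SymF F) : F :=
  ∑ c ∈ f.support, coeff c f * coeff c g * (zFac c : F) * β ^ c.degree

/-- The complete homogeneous symmetric functions, by Newton's identity
`k h_k = ∑_{i=1}^{k} p_i h_{k-i}` (see `inVars_hsym`: in `N` variables this is `hsymm`). -/
noncomputable def hsym : ℕ → SymF F
  | 0 => 1
  | k + 1 => C ((k + 1 : F)⁻¹) * ∑ i : Fin (k + 1), X (i : ℕ) * hsym (k - i)

/-- `h_k` for an integer index, zero for negative `k`. -/
noncomputable def hZ (k : ℤ) : SymF F := if 0 ≤ k then hsym k.toNat else 0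

/-- The parts of a partition, in weakly decreasing order. -/
def rows {n : ℕ} (μ : n.Partition) : List ℕ := μ.parts.sort (· ≥ ·)

/-- The Jacobi-Trudi determinant `det (h_{l_i - i + j})` of a list `l = [l_1, l_2, …]`. -/
noncomputable def jacobiTrudi (l : List ℕ) : SymF F :=
  Matrix.det (Matrix.of fun i j : Fin l.length => (hZ ((l.get i : ℤ) - (i : ℤ) + (j : ℤ)) : SymF F))

/-- The Schur function, by the Jacobi-Trudi formula `s_λ = det (h_{λ_i - i + j})`. -/
noncomputable def schur {n : ℕ} (lam : n.Partition) : SymF F := jacobiTrudi (rows lam)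

/-- Dominance order: `ν_1 + ⋯ + ν_k ≤ μ_1 + ⋯ + μ_k` for all `k`. -/
def DomLE {n : ℕ} (ν μ : n.Partition) : Prop :=
  ∀ k, ((rows ν).take k).sum ≤ ((rows μ).take k).sum

/-- `f` is the linear combination `∑_ν c_ν m_ν` of monomial symmetric functions
(in every number `N` of variables). -/
def IsComb {n : ℕ} (f : SymF F) (c : n.Partition → F) : Prop :=
  ∀ N, inVars N f = ∑ ν : n.Partition, C (c ν) * msymm (Fin N) F ν

/-- `f` has the form `m_μ + ∑_{ν < μ} c_ν m_ν`, where `<` is the dominance order. -/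
def Triangular {n : ℕ} (μ : n.Partition) (f : SymF F) : Prop :=
  ∃ c : n.Partition → F, IsComb f c ∧ c μ = 1 ∧ ∀ ν, c ν ≠ 0 → DomLE ν μ

/-- `f` lies in the span of the `m_ν` with `ν < μ` in the dominance order. -/
def Below {n : ℕ} (μ : n.Partition) (f : SymF F) : Prop :=
  ∃ c : n.Partition → F, IsComb f c ∧ c μ = 0 ∧ ∀ ν, c ν ≠ 0 → DomLE ν μ

/-- The family of Jack polynomials `P_μ^{(β)}`, `μ ⊢ n`: `P_μ = m_μ + ∑_{ν < μ} c_{μν} m_ν`,
and the `P_μ` are mutually orthogonal for `⟨ , ⟩_β`. -/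
def IsJackFamily (β : F) {n : ℕ} (P : n.Partition → SymF F) : Prop :=
  (∀ μ, Triangular μ (P μ)) ∧ ∀ μ ν, μ ≠ ν → pair β (P μ) (P ν) = 0

/-- `P` is the Jack polynomial `P_μ^{(β)}`: `P = m_μ + ∑_{ν < μ} c_ν m_ν`, and `P` is orthogonal
to the span of the `m_ν`, `ν < μ`, for `⟨ , ⟩_β`. -/
def IsJack (β : F) {n : ℕ} (μ : n.Partition) (P : SymF F) : Prop :=
  Triangular μ P ∧ ∀ f, Below μ f → pair β P f = 0

/-- `∏_s (β a(s) + l(s) + 1)` over the cells `s = (i, j)` of the diagram with row lengths `l`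
(rows and columns from `0`): the arm length is `a(s) = l_i - 1 - j`, and the leg length `l(s)` is
the number of rows below row `i` of length more than `j`. -/
def hookProdL (β : F) (l : List ℕ) : F :=
  ∏ i : Fin l.length, ∏ j : Fin (l.get i),
    (β * ((l.get i - 1 - (j : ℕ) : ℕ) : F) +
      (((l.drop (i + 1)).countP fun r => decide ((j : ℕ) < r) : ℕ) : F) + 1)

/-- `∏_{s ∈ μ} (β a(s) + l(s) + 1)`, `a` the arm length and `l` the leg length. -/
def hookProd (β : F) {n : ℕ} (μ : n.Partition) : F := hookProdL β (rows μ)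

/-- `J̃_μ^{(α)} = αⁿ J_μ^{(1/α)}`, where `J_μ^{(β)} = ∏_{s ∈ μ} (β a(s) + l(s) + 1) P_μ^{(β)}`
and `P` is the Jack polynomial `P_μ^{(1/α)}`. -/
noncomputable def Jtilde (α : F) {n : ℕ} (μ : n.Partition) (P : SymF F) : SymF F :=
  C (α ^ n * hookProd α⁻¹ μ) * P

/-- The binomial coefficient `(a choose n) = a (a - 1) ⋯ (a - n + 1) / n!`. -/
def binom (a : F) (n : ℕ) : F := (∏ i : Fin n, (a - (i : ℕ))) / (n.factorial : F)

end Pool.Agent.Lib.MP_e60a9a_co
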