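import Mathlib
import Pool.Agent.Lib.MP_e60a9a_co.Defs

section

/-!
# The pairing on symmetric functions
-/

namespace Pool.Agent.Lib.MP_e60a9a_co

open MvPolynomial

variable {F : Type} [Field F]

lemma pair_eq_sum (β : F) (f g : SymF F) (S : Finset (ℕ →₀ ℕ)) (hS : f.support ⊆ S) :
    pair β f g = ∑ c ∈ S, coeff c f * coeff c g * (zFac c : F) * β ^ c.degree := by
  rw [pair]
  refine Finset.sum_subset hS fun c _ hc => ?_
  rw [notMem_support_iff.mp hc]
  ring

lemma pair_comm (β : F) (f g : SymF F) : pair β f g = pair β g f := by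
  classical
  rw [pair_eq_sum β f g (f.support ∪ g.support) Finset.subset_union_left,
    pair_eq_sum β g f (f.support ∪ g.support) Finset.subset_union_right]
  refine Finset.sum_congr rfl fun c _ => ?_
  ring

lemma pair_add_left (β : F) (f f' g : SymF F) :
    pair β (f + f') g = pair β f g + pair β f' g := by
  classical
  rw [pair_eq_sum β f g (f.support ∪ f'.support) Finset.subset_union_left,
    pair_eq_sum β f' g (f.support ∪ f'.support) Finset.subset_union_right,
    pair_eq_sum β (f + f') g (f.support ∪ f'.support) support_add, ← Finset.sum_add_distrib]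
  refine Finset.sum_congr rfl fun c _ => ?_
  rw [coeff_add]
  ring

lemma pair_C_mul_left (β a : F) (f g : SymF F) :
    pair β (C a * f) g = a * pair β f g := by
  classical
  rw [pair_eq_sum β (C a * f) g (f.support) ?_, pair, Finset.mul_sum]
  · refine Finset.sum_congr rfl fun c _ => ?_
    rw [coeff_C_mul]
    ring
  · intro c hc
    rw [mem_support_iff, coeff_C_mul] at hc
    rw [mem_support_iff]
    exact right_ne_zero_of_mul hc

lemma pair_add_right (β : F) (f g g' : SymF F) :
    pair β f (g + g') = pair β f g + pair β f g' := by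
  rw [pair_comm, pair_add_left, pair_comm β g, pair_comm β g']

lemma pair_C_mul_right (β a : F) (f g : SymF F) :
    pair β f (C a * g) = a * pair β f g := by
  rw [pair_comm, pair_C_mul_left, pair_comm]

@[simp] lemma pair_zero_left (β : F) (g : SymF F) : pair β 0 g = 0 := by simp [pair]

@[simp] lemma pair_zero_right (β : F) (f : SymF F) : pair β f 0 = 0 := by
  rw [pair_comm, pair_zero_left]

lemma pair_neg_left (β : F) (f g : SymF F) : pair β (-f) g = - pair β f g := by
  have h : -f = C (-1) * f := by simp
  rw [h, pair_C_mul_left]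
  ring

lemma pair_sub_left (β : F) (f f' g : SymF F) :
    pair β (f - f') g = pair β f g - pair β f' g := by
  rw [sub_eq_add_neg, pair_add_left, pair_neg_left, sub_eq_add_neg]

lemma pair_sub_right (β : F) (f g g' : SymF F) :
    pair β f (g - g') = pair β f g - pair β f g' := by
  rw [pair_comm, pair_sub_left, pair_comm β g, pair_comm β g']

lemma pair_sum_left {ι : Type*} (β : F) (s : Finset ι) (f : ι → SymF F) (g : SymF F) :
    pair β (∑ i ∈ s, f i) g = ∑ i ∈ s, pair β (f i) g := by
  classical
  induction s using Finset.induction_on with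
  | empty => simp
  | insert a s ha ih => rw [Finset.sum_insert ha, Finset.sum_insert ha, pair_add_left, ih]

lemma pair_sum_right {ι : Type*} (β : F) (s : Finset ι) (f : SymF F) (g : ι → SymF F) :
    pair β f (∑ i ∈ s, g i) = ∑ i ∈ s, pair β f (g i) := by
  rw [pair_comm, pair_sum_left]
  exact Finset.sum_congr rfl fun i _ => pair_comm _ _ _

lemma pair_monomial_left (β a : F) (c : ℕ →₀ ℕ) (g : SymF F) :
    pair β (monomial c a) g = a * coeff c g * (zFac c : F) * β ^ c.degree := by
  classical
  rw [pair_eq_sum β _ g {c} support_monomial_subset, Finset.sum_singleton, coeff_monomial,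
    if_pos rfl]

lemma zFac_add_single (c : ℕ →₀ ℕ) (r : ℕ) :
    zFac (c + Finsupp.single r 1) = zFac c * ((r + 1) * (c r + 1)) := by
  classical
  unfold zFac
  have hS1 : (c + Finsupp.single r 1).support ⊆ insert r c.support := by
    intro x hx
    rw [Finset.mem_insert]
    by_cases h : x = r
    · exact Or.inl h
    · right
      rw [Finsupp.mem_support_iff] at hx ⊢
      rw [Finsupp.add_apply, Finsupp.single_apply, if_neg (Ne.symm h), add_zero] at hx
      exact hx
  have hS2 : c.support ⊆ insert r c.support := Finset.subset_insert _ _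
  rw [Finsupp.prod_of_support_subset _ hS1 _ (fun i _ => by simp),
    Finsupp.prod_of_support_subset _ hS2 _ (fun i _ => by simp),
    ← Finset.mul_prod_erase _ _ (Finset.mem_insert_self r c.support),
    ← Finset.mul_prod_erase _ _ (Finset.mem_insert_self r c.support)]
  have h1 : ∏ x ∈ (insert r c.support).erase r,
      ((x + 1) ^ ((c + Finsupp.single r 1 : ℕ →₀ ℕ) x) *
        ((c + Finsupp.single r 1 : ℕ →₀ ℕ) x).factorial) =
      ∏ x ∈ (insert r c.support).erase r, ((x + 1) ^ c x * (c x).factorial) := by
    refine Finset.prod_congr rfl fun x hx => ?_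
    have : x ≠ r := Finset.ne_of_mem_erase hx
    rw [Finsupp.add_apply, Finsupp.single_apply, if_neg (Ne.symm this), add_zero]
  rw [h1, Finsupp.add_apply, Finsupp.single_eq_same, Nat.factorial_succ, pow_succ]
  ring

/-- adjointness of multiplication by `p_{r+1}` and `(r+1) ∂/∂p_{r+1}`. -/
lemma pair_mul_X (f g : SymF F) (r : ℕ) :
    pair 1 (f * X r) g = pair 1 f (C ((r + 1 : ℕ) : F) * pderiv r g) := by
  induction f using MvPolynomial.induction_on' with
  | monomial c a =>
    rw [X, monomial_mul, mul_one, pair_monomial_left, pair_monomial_left, coeff_C_mul,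
      coeff_pderiv, zFac_add_single]
    push_cast
    ring
  | add p q hp hq =>
    rw [add_mul, pair_add_left, hp, hq, pair_add_left]

lemma hsym_zero : (hsym 0 : SymF F) = 1 := by rw [hsym]

lemma hsym_succ (k : ℕ) : (hsym (k + 1) : SymF F) =
    C ((k + 1 : F)⁻¹) * ∑ i ∈ Finset.range (k + 1), X i * hsym (k - i) := by
  rw [hsym, Finset.sum_range]

variable [CharZero F]

/-- Newton's identity. -/
lemma newton_h (k : ℕ) : C (k : F) * (hsym k : SymF F) =
    ∑ i ∈ Finset.range k, X i * hsym (k - 1 - i) := by
  cases k with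
  | zero => simp
  | succ k =>
    rw [hsym_succ, ← mul_assoc, ← C_mul]
    have h : ((k + 1 : ℕ) : F) * (k + 1 : F)⁻¹ = 1 := by
      push_cast
      exact mul_inv_cancel₀ (by exact_mod_cast Nat.succ_ne_zero k)
    rw [h, C_1, one_mul]
    rfl

/-- `p_r^⊥ h_k = h_{k-r}`. -/
lemma pderiv_hsym (r k : ℕ) : C ((r + 1 : ℕ) : F) * pderiv r (hsym k : SymF F) =
    if r + 1 ≤ k then hsym (k - (r + 1)) else 0 := by
  induction k using Nat.strong_induction_on with
  | _ k ih =>
    rcases Nat.eq_zero_or_pos k with rfl | hk
    · rw [hsym_zero, if_neg (by omega)]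
      simp
    · have hk0 : (k : F) ≠ 0 := by exact_mod_cast hk.ne'
      have hC : (C (k : F) : SymF F) ≠ 0 := by
        rw [Ne, C_eq_zero]; exact hk0
      refine mul_left_cancel₀ hC ?_
      have h1 : C (k : F) * (C ((r + 1 : ℕ) : F) * pderiv r (hsym k : SymF F)) =
          C ((r + 1 : ℕ) : F) * pderiv r (C (k : F) * (hsym k : SymF F)) := by
        rw [pderiv_C_mul, ← mul_assoc, ← mul_assoc, mul_comm (C (k : F))]
      rw [h1, newton_h, map_sum, Finset.mul_sum]
      have h2 : ∀ i ∈ Finset.range k, C ((r + 1 : ℕ) : F) *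
          pderiv r (X i * (hsym (k - 1 - i) : SymF F)) =
          (if i = r then C ((r + 1 : ℕ) : F) * hsym (k - (r + 1)) else 0) +
          X i * (if r + 1 ≤ k - 1 - i then hsym (k - 1 - i - (r + 1)) else 0) := by
        intro i hi
        rw [Finset.mem_range] at hi
        rw [pderiv_mul, mul_add, ← ih (k - 1 - i) (by omega)]
        congr 1
        · by_cases h : i = r
          · subst h
            rw [pderiv_X_self, if_pos rfl, one_mul]
            congr 2
            omega
          · rw [pderiv_X_of_ne h, if_neg h]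
            simp
        · ring
      rw [Finset.sum_congr rfl h2, Finset.sum_add_distrib, Finset.sum_ite_eq']
      by_cases hr : r + 1 ≤ k
      · rw [if_pos (Finset.mem_range.mpr (by omega)), if_pos hr]
        have h3 : ∑ i ∈ Finset.range k, X i *
            (if r + 1 ≤ k - 1 - i then (hsym (k - 1 - i - (r + 1)) : SymF F) else 0) =
            C ((k - (r + 1) : ℕ) : F) * hsym (k - (r + 1)) := by
          rw [newton_h]
          have hsub : Finset.range (k - (r + 1)) ⊆ Finset.range k := by
            intro x hx
            rw [Finset.mem_range] at hx ⊢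
            omega
          rw [← Finset.sum_subset hsub]
          · refine Finset.sum_congr rfl fun i hi => ?_
            rw [Finset.mem_range] at hi
            rw [if_pos (by omega)]
            congr 2
            omega
          · intro i _ hi
            rw [Finset.mem_range] at hi
            rw [if_neg (by omega), mul_zero]
        rw [h3, ← add_mul, ← C_add]
        congr 2
        rw [← Nat.cast_add]
        congr 1
        omega
      · rw [if_neg (by rw [Finset.mem_range]; omega), if_neg hr, mul_zero, zero_add]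
        refine Finset.sum_eq_zero fun i _ => ?_
        rw [if_neg (by omega), mul_zero]

/-- the product `h_{d_1} ⋯ h_{d_N}` -/
noncomputable def hprod {N : ℕ} (d : Fin N →₀ ℕ) : SymF F := ∏ a, hsym (d a)

omit [CharZero F] in
lemma pderiv_prod {N : ℕ} (r : ℕ) (g : Fin N → SymF F) :
    pderiv r (∏ a, g a) = ∑ a, pderiv r (g a) * ∏ b ∈ Finset.univ.erase a, g b := by
  classical
  generalize (Finset.univ : Finset (Fin N)) = s
  induction s using Finset.induction_on with
  | empty => simp
  | insert a s ha ih =>
    rw [Finset.prod_insert ha, pderiv_mul, ih, Finset.sum_insert ha, Finset.erase_insert ha,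
      Finset.mul_sum]
    congr 1
    refine Finset.sum_congr rfl fun b hb => ?_
    have hab : a ≠ b := by rintro rfl; exact ha hb
    rw [Finset.erase_insert_of_ne hab, Finset.prod_insert (fun h => ha (Finset.mem_of_mem_erase h))]
    ring

lemma constantCoeff_hsym (k : ℕ) :
    constantCoeff (hsym k : SymF F) = if k = 0 then 1 else 0 := by
  rcases Nat.eq_zero_or_pos k with rfl | hk
  · rw [hsym_zero, if_pos rfl, map_one]
  · rw [if_neg hk.ne']
    have h := congrArg (constantCoeff (σ := ℕ) (R := F)) (newton_h (F := F) k)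
    rw [map_mul, constantCoeff_C, map_sum] at h
    have h0 : ∑ x ∈ Finset.range k,
        constantCoeff (X x * (hsym (k - 1 - x) : SymF F)) = 0 := by
      refine Finset.sum_eq_zero fun i _ => ?_
      rw [map_mul, constantCoeff_X, zero_mul]
    rw [h0] at h
    rcases mul_eq_zero.mp h with h | h
    · exact absurd h (by exact_mod_cast hk.ne')
    · exact h

omit [CharZero F] in
lemma hprod_sub_single {N : ℕ} (d : Fin N →₀ ℕ) (a : Fin N) (r : ℕ) :
    (hprod (d - Finsupp.single a r) : SymF F) =
      hsym (d a - r) * ∏ b ∈ Finset.univ.erase a, hsym (d b) := by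
  classical
  rw [hprod, ← Finset.mul_prod_erase _ _ (Finset.mem_univ a)]
  congr 1
  · rw [Finsupp.tsub_apply, Finsupp.single_eq_same]
  · refine Finset.prod_congr rfl fun b hb => ?_
    have hb' : b ≠ a := Finset.ne_of_mem_erase hb
    rw [Finsupp.tsub_apply, Finsupp.single_eq_of_ne hb', Nat.sub_zero]

/-- The coefficient of `x^d` is the Hall pairing with `h_{d_1} ⋯ h_{d_N}`. -/
lemma coeff_inVars {N : ℕ} (f : SymF F) (d : Fin N →₀ ℕ) :
    coeff d (inVars N f) = pair 1 f (hprod d) := by
  classical
  induction f using MvPolynomial.induction_on generalizing d with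
  | C a =>
    have h1 : inVars N (C a : SymF F) = C a := by
      rw [inVars]
      exact aeval_C _ _
    have h2 : (C a : SymF F) = monomial 0 a := rfl
    rw [h1, coeff_C, h2, pair_monomial_left]
    have h3 : coeff 0 (hprod d : SymF F) = if 0 = d then 1 else 0 := by
      rw [← constantCoeff_eq, hprod, map_prod]
      simp only [constantCoeff_hsym]
      by_cases h : 0 = d
      · rw [if_pos h]
        refine Finset.prod_eq_one fun b _ => ?_
        rw [← h, Finsupp.zero_apply, if_pos rfl]
      · rw [if_neg h]
        obtain ⟨b, hb⟩ : ∃ b, d b ≠ 0 := by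
          by_contra hcon
          push Not at hcon
          exact h (Finsupp.ext fun b => (hcon b).symm)
        exact Finset.prod_eq_zero (Finset.mem_univ b) (if_neg hb)
    rw [h3]
    have h4 : zFac 0 = 1 := by simp [zFac]
    rw [h4]
    split_ifs <;> simp
  | add p q hp hq => rw [map_add, coeff_add, hp, hq, pair_add_left]
  | mul_X p r hp =>
    rw [pair_mul_X, hprod, pderiv_prod, Finset.mul_sum, pair_sum_right, map_mul]
    have h1 : inVars N (X r : SymF F) = ∑ a : Fin N, monomial (Finsupp.single a (r + 1)) 1 := by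
      rw [inVars, aeval_X, psum]
      refine Finset.sum_congr rfl fun a _ => ?_
      rw [X_pow_eq_monomial]
    rw [h1, Finset.mul_sum, coeff_sum]
    refine Finset.sum_congr rfl fun a _ => ?_
    rw [coeff_mul_monomial', ← mul_assoc, pderiv_hsym]
    by_cases h : r + 1 ≤ d a
    · have hle : Finsupp.single a (r + 1) ≤ d := by
        rw [Finsupp.single_le_iff]
        exact h
      rw [if_pos hle, if_pos h, mul_one, hp, hprod_sub_single]
    · have hle : ¬ Finsupp.single a (r + 1) ≤ d := by
        rw [Finsupp.single_le_iff]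
        exact h
      rw [if_neg hle, if_neg h, zero_mul, pair_zero_right]

/-- Scaling the power sums by `θ`. -/
noncomputable def scale (θ : F) : SymF F →ₐ[F] SymF F := aeval fun i => C θ * X i

omit [CharZero F] in
lemma scale_monomial (θ a : F) (c : ℕ →₀ ℕ) :
    scale θ (monomial c a) = monomial c (θ ^ c.degree * a) := by
  rw [scale, aeval_monomial, monomial_eq (s := c) (a := θ ^ c.degree * a)]
  have h : (c.prod fun i k => (C θ * X i : SymF F) ^ k) =
      C (θ ^ c.degree) * c.prod fun i k => X i ^ k := by
    unfold Finsupp.prod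
    simp only [mul_pow]
    rw [Finset.prod_mul_distrib, Finset.prod_pow_eq_pow_sum, C_pow]
    rfl
  rw [h, C_mul]
  have : (algebraMap F (SymF F)) a = C a := rfl
  rw [this]
  ring

omit [CharZero F] in
lemma coeff_scale (θ : F) (f : SymF F) (c : ℕ →₀ ℕ) :
    coeff c (scale θ f) = θ ^ c.degree * coeff c f := by
  classical
  induction f using MvPolynomial.induction_on' with
  | monomial c' a =>
    rw [scale_monomial, coeff_monomial, coeff_monomial]
    split_ifs with h
    · rw [h]
    · simp
  | add p q hp hq => rw [map_add, coeff_add, coeff_add, hp, hq, mul_add]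

omit [CharZero F] in
lemma pair_scale_right (β θ : F) (f g : SymF F) :
    pair β f (scale θ g) = pair (β * θ) f g := by
  unfold pair
  refine Finset.sum_congr rfl fun c _ => ?_
  rw [coeff_scale, mul_pow]
  ring

omit [CharZero F] in
lemma pair_scale_left (β θ : F) (f g : SymF F) :
    pair β (scale θ f) g = pair (β * θ) f g := by
  rw [pair_comm, pair_scale_right, pair_comm]

/-- The pairing is definite if `F` embeds in the reals with `β` positive. -/
lemma pair_self_eq_zero (ι : F →+* ℝ) (β : F) (hβ : 0 < ι β) (f : SymF F)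
    (h : pair β f f = 0) : f = 0 := by
  have h1 : ∑ c ∈ f.support, (ι (coeff c f)) ^ 2 * (zFac c : ℝ) * (ι β) ^ c.degree = 0 := by
    have := congrArg ι h
    rw [map_zero, pair, map_sum] at this
    rw [← this]
    refine Finset.sum_congr rfl fun c _ => ?_
    simp only [map_mul, map_pow, map_natCast]
    ring
  have hz : ∀ c, 0 < (zFac c : ℝ) := by
    intro c
    have : 0 < zFac c := by
      unfold zFac Finsupp.prod
      exact Finset.prod_pos fun i _ => by positivity
    exact_mod_cast this
  rw [Finset.sum_eq_zero_iff_of_nonneg (fun c _ => by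
    have := hz c
    positivity)] at h1
  by_contra hf
  obtain ⟨c, hc⟩ := Finset.nonempty_iff_ne_empty.mpr (fun he => hf (support_eq_empty.mp he))
  have h2 := h1 c hc
  have h3 : ι (coeff c f) ≠ 0 := by
    rw [Ne, map_eq_zero]
    exact mem_support_iff.mp hc
  have := hz c
  have h4 : 0 < (ι (coeff c f)) ^ 2 * (zFac c : ℝ) * (ι β) ^ c.degree := by positivity
  exact h4.ne' h2

/-- A symmetric function vanishing in every number of variables is zero. -/
lemma eq_zero_of_inVars (f : SymF F) (h : ∀ N, inVars N f = 0) : f = 0 := by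
  classical
  have h1 : ∀ g : SymF F, pair 1 f g = 0 := by
    have key : ∀ g ∈ Algebra.adjoin F (Set.range (hsym : ℕ → SymF F)), pair 1 f g = 0 := by
      intro g hg
      rw [← Subalgebra.mem_toSubmodule, Algebra.adjoin_eq_span] at hg
      induction hg using Submodule.span_induction with
      | mem x hx =>
        have hx' : ∃ (N : ℕ) (d : Fin N →₀ ℕ), x = hprod d := by
          induction hx using Submonoid.closure_induction with
          | mem x hx =>
            obtain ⟨k, rfl⟩ := hx
            refine ⟨1, Finsupp.single 0 k, ?_⟩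
            rw [hprod]
            simp
          | one => exact ⟨0, 0, by simp [hprod]⟩
          | mul x y _ _ hx hy =>
            obtain ⟨N, d, rfl⟩ := hx
            obtain ⟨M, e, rfl⟩ := hy
            refine ⟨N + M, Finsupp.equivFunOnFinite.symm (Fin.append d e), ?_⟩
            rw [hprod, hprod, hprod, Fin.prod_univ_add]
            congr 1
            · refine Finset.prod_congr rfl fun a _ => ?_
              simp
            · refine Finset.prod_congr rfl fun a _ => ?_
              simp
        obtain ⟨N, d, rfl⟩ := hx'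
        rw [← coeff_inVars, h N, coeff_zero]
      | zero => exact pair_zero_right _ _
      | add x y _ _ hx hy => rw [pair_add_right, hx, hy, add_zero]
      | smul a x _ hx => rw [smul_eq_C_mul, pair_C_mul_right, hx, mul_zero]
    have htop : ∀ g : SymF F, g ∈ Algebra.adjoin F (Set.range (hsym : ℕ → SymF F)) := by
      have hX : ∀ i : ℕ, (X i : SymF F) ∈ Algebra.adjoin F (Set.range (hsym : ℕ → SymF F)) := by
        intro i
        induction i using Nat.strong_induction_on with
        | _ i ih =>
          have hn := newton_h (F := F) (i + 1)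
          rw [Finset.sum_range_succ, show i + 1 - 1 - i = 0 by omega, hsym_zero, mul_one] at hn
          have hXi : (X i : SymF F) = C ((i + 1 : ℕ) : F) * hsym (i + 1) -
              ∑ j ∈ Finset.range i, X j * hsym (i + 1 - 1 - j) := by
            rw [hn]; ring
          rw [hXi]
          refine sub_mem (mul_mem (Subalgebra.algebraMap_mem _ _)
            (Algebra.subset_adjoin ⟨_, rfl⟩)) (sum_mem fun j hj => ?_)
          exact mul_mem (ih j (Finset.mem_range.mp hj)) (Algebra.subset_adjoin ⟨_, rfl⟩)
      intro g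
      induction g using MvPolynomial.induction_on with
      | C a => exact Subalgebra.algebraMap_mem _ _
      | add p q hp hq => exact add_mem hp hq
      | mul_X p r hp => exact mul_mem hp (hX r)
    exact fun g => key g (htop g)
  ext c
  have h2 := h1 (monomial c 1)
  rw [pair_comm, pair_monomial_left, one_mul, one_pow, mul_one] at h2
  have hz : (zFac c : F) ≠ 0 := by
    have : zFac c ≠ 0 := by
      unfold zFac Finsupp.prod
      exact (Finset.prod_pos fun i _ => by positivity).ne'
    exact_mod_cast this
  rw [coeff_zero]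
  exact (mul_eq_zero.mp h2).resolve_right hz

lemma inVars_one_hsym (k : ℕ) : inVars 1 (hsym k : SymF F) = X 0 ^ k := by
  induction k using Nat.strong_induction_on with
  | _ k ih =>
    rcases Nat.eq_zero_or_pos k with rfl | hk
    · rw [hsym_zero, map_one, pow_zero]
    · have h := congrArg (inVars 1) (newton_h (F := F) k)
      rw [map_mul, map_sum] at h
      have h1 : ∀ i ∈ Finset.range k, inVars 1 (X i * (hsym (k - 1 - i) : SymF F)) = X 0 ^ k := by
        intro i hi
        rw [Finset.mem_range] at hi
        rw [map_mul, ih _ (by omega), inVars, aeval_X, psum]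
        simp only [Finset.univ_unique, Fin.default_eq_zero, Fin.isValue, Finset.sum_singleton]
        rw [← pow_add]
        congr 1
        omega
      rw [Finset.sum_congr rfl h1, Finset.sum_const, Finset.card_range, nsmul_eq_mul] at h
      have h2 : inVars 1 (C (k : F) : SymF F) = ((k : ℕ) : MvPolynomial (Fin 1) F) := by
        rw [inVars]
        simp
      rw [h2] at h
      have h3 : ((k : ℕ) : MvPolynomial (Fin 1) F) ≠ 0 := by
        exact_mod_cast hk.ne'
      exact mul_left_cancel₀ h3 h

end Pool.Agent.Lib.MP_e60a9a_co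
end

section

/-!
# Monomial symmetric functions, dominance order, Jack families
-/

namespace Pool.Agent.Lib.MP_e60a9a_co

open MvPolynomial

variable {F : Type} [Field F]

lemma prod_map_X {N : ℕ} (s : Multiset (Fin N)) :
    (s.map (X : Fin N → MvPolynomial (Fin N) F)).prod = monomial (Multiset.toFinsupp s) 1 := by
  induction s using Multiset.induction_on with
  | empty => simp
  | cons a s ih =>
    rw [Multiset.map_cons, Multiset.prod_cons, ih, X, monomial_mul, ← Multiset.singleton_add,
      Multiset.toFinsupp_add, Multiset.toFinsupp_singleton, one_mul]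

/-- The multiset of variables with multiplicities `d`. -/
lemma card_toMultiset' {N : ℕ} (d : Fin N →₀ ℕ) :
    Multiset.card (Finsupp.toMultiset d) = ∑ a, d a := by
  rw [Finsupp.card_toMultiset, Finsupp.sum_fintype _ _ (fun _ => rfl)]
  rfl

/-- The partition of `n` formed by the nonzero entries of `d`. -/
noncomputable def typ {n N : ℕ} (d : Fin N →₀ ℕ) (h : ∑ a, d a = n) : n.Partition :=
  Nat.Partition.ofSym ⟨Finsupp.toMultiset d, by rw [card_toMultiset', h]⟩

lemma coeff_msymm {n N : ℕ} (μ : n.Partition) (d : Fin N →₀ ℕ) :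
    coeff d (msymm (Fin N) F μ) =
      if h : ∑ a, d a = n then (if typ d h = μ then 1 else 0) else 0 := by
  classical
  rw [msymm, coeff_sum]
  have h1 : ∀ s : {a : Sym (Fin N) n // .ofSym a = μ},
      coeff d ((s.1.1.map (X : Fin N → MvPolynomial (Fin N) F)).prod) =
        if Multiset.toFinsupp s.1.1 = d then 1 else 0 := by
    intro s
    rw [prod_map_X, coeff_monomial]
  rw [Finset.sum_congr rfl fun s _ => h1 s]
  by_cases h : ∑ a, d a = n
  · rw [dif_pos h]
    by_cases hμ : typ d h = μ
    · rw [if_pos hμ]
      have hs : ∀ s : {a : Sym (Fin N) n // .ofSym a = μ}, Multiset.toFinsupp s.1.1 = d ↔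
          s = ⟨⟨Finsupp.toMultiset d, by rw [card_toMultiset', h]⟩, hμ⟩ := by
        intro s
        rw [Multiset.toFinsupp_eq_iff]
        constructor
        · intro h'
          exact Subtype.ext (Subtype.ext h')
        · intro h'
          rw [h']
      simp only [hs]
      rw [Finset.sum_ite_eq' Finset.univ]
      simp
    · rw [if_neg hμ]
      refine Finset.sum_eq_zero fun s _ => ?_
      rw [if_neg]
      intro hs
      apply hμ
      rw [Multiset.toFinsupp_eq_iff] at hs
      rw [← s.2]
      unfold typ
      congr 1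
      exact Subtype.ext hs.symm
  · rw [dif_neg h]
    refine Finset.sum_eq_zero fun s _ => ?_
    rw [if_neg]
    intro hs
    apply h
    rw [Multiset.toFinsupp_eq_iff] at hs
    rw [← card_toMultiset', ← hs]
    exact s.1.2

lemma mem_parts_typ {n N : ℕ} (d : Fin N →₀ ℕ) (h : ∑ a, d a = n) (x : ℕ) :
    x ∈ (typ d h).parts ↔ ∃ a, d a = x ∧ x ≠ 0 := by
  unfold typ Nat.Partition.ofSym
  simp only [Multiset.mem_map, Multiset.mem_dedup, Finsupp.mem_toMultiset, Finsupp.mem_support_iff,
    Finsupp.count_toMultiset]
  constructor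
  · rintro ⟨a, ha, rfl⟩
    exact ⟨a, rfl, ha⟩
  · rintro ⟨a, rfl, ha⟩
    exact ⟨a, ha, rfl⟩

lemma prod_parts_typ {n N : ℕ} (d : Fin N →₀ ℕ) (h : ∑ a, d a = n) {R : Type*} [CommMonoid R]
    (g : ℕ → R) (hg : g 0 = 1) : ((typ d h).parts.map g).prod = ∏ a, g (d a) := by
  classical
  have h1 : (typ d h).parts = d.support.val.map d := by
    unfold typ Nat.Partition.ofSym
    simp only
    rw [← Multiset.toFinset_val, Finsupp.toFinset_toMultiset]
    refine Multiset.map_congr rfl fun a _ => ?_
    rw [Finsupp.count_toMultiset]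
  rw [h1, Multiset.map_map]
  change ∏ a ∈ d.support, g (d a) = _
  refine Finset.prod_subset (Finset.subset_univ _) fun a _ ha => ?_
  rw [Finsupp.notMem_support_iff.mp ha, hg]

lemma coeff_comb {n N : ℕ} (c : n.Partition → F) (d : Fin N →₀ ℕ) :
    coeff d (∑ ν : n.Partition, C (c ν) * msymm (Fin N) F ν) =
      if h : ∑ a, d a = n then c (typ d h) else 0 := by
  rw [coeff_sum]
  simp only [coeff_C_mul, coeff_msymm]
  by_cases h : ∑ a, d a = n
  · simp only [dif_pos h]
    simp
  · simp only [dif_neg h]
    simp

/-! ### Dominance -/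

lemma rows_pos {n : ℕ} (μ : n.Partition) : ∀ x ∈ rows μ, 0 < x := by
  intro x hx
  unfold rows at hx
  rw [Multiset.mem_sort] at hx
  exact μ.parts_pos hx

lemma rows_sum {n : ℕ} (μ : n.Partition) : (rows μ).sum = n := by
  have h : ((rows μ : List ℕ) : Multiset ℕ).sum = n := by
    unfold rows
    rw [Multiset.sort_eq, μ.parts_sum]
  rwa [Multiset.sum_coe] at h

lemma rows_inj {n : ℕ} {μ ν : n.Partition} (h : rows μ = rows ν) : μ = ν := by
  apply Nat.Partition.ext
  have h1 := congrArg (fun l : List ℕ => (l : Multiset ℕ)) h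
  simp only [rows, Multiset.sort_eq] at h1
  exact h1

lemma list_eq_of_take_sum : ∀ l₁ l₂ : List ℕ, (∀ x ∈ l₁, 0 < x) → (∀ x ∈ l₂, 0 < x) →
    (∀ k, (l₁.take k).sum = (l₂.take k).sum) → l₁ = l₂
  | [], [], _, _, _ => rfl
  | [], b :: l₂, _, h2, h => by
    have := h 1
    simp at this
    have := h2 b (by simp)
    omega
  | a :: l₁, [], h1, _, h => by
    have := h 1
    simp at this
    have := h1 a (by simp)
    omega
  | a :: l₁, b :: l₂, h1, h2, h => by
    have hab : a = b := by
      have := h 1
      simpa using this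
    subst hab
    rw [list_eq_of_take_sum l₁ l₂ (fun x hx => h1 x (by simp [hx])) (fun x hx => h2 x (by simp [hx]))
      (fun k => by
        have := h (k + 1)
        simpa using this)]

lemma DomLE.refl {n : ℕ} (μ : n.Partition) : DomLE μ μ := fun _ => le_rfl

lemma DomLE.trans {n : ℕ} {μ ν κ : n.Partition} (h1 : DomLE μ ν) (h2 : DomLE ν κ) :
    DomLE μ κ := fun k => (h1 k).trans (h2 k)

lemma DomLE.antisymm {n : ℕ} {μ ν : n.Partition} (h1 : DomLE μ ν) (h2 : DomLE ν μ) :
    μ = ν :=
  rows_inj (list_eq_of_take_sum _ _ (rows_pos μ) (rows_pos ν) fun k => le_antisymm (h1 k) (h2 k))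

/-! ### Families -/

lemma IsComb.sub_mul {n : ℕ} {f g : SymF F} {c c' : n.Partition → F} (hf : IsComb f c)
    (hg : IsComb g c') (a : F) : IsComb (f - C a * g) (fun ν => c ν - a * c' ν) := by
  intro N
  rw [map_sub, map_mul, hf N, hg N]
  have h : inVars N (C a : SymF F) = C a := by
    rw [inVars]; exact aeval_C _ _
  rw [h, Finset.mul_sum, ← Finset.sum_sub_distrib]
  refine Finset.sum_congr rfl fun ν _ => ?_
  rw [C_sub, C_mul]
  ring

variable [CharZero F]

/-- A combination of the `m_ν` is orthogonal to everything orthogonal to the `P_ν`. -/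
lemma pair_comb_eq_zero (β : F) {n : ℕ} (P : n.Partition → SymF F)
    (hP : ∀ μ, Triangular μ (P μ)) (Q : SymF F) :
    ∀ (m : ℕ) (f : SymF F) (c : n.Partition → F), IsComb f c →
      Set.ncard {ν | ∃ κ, c κ ≠ 0 ∧ DomLE ν κ} ≤ m →
      (∀ ν κ, c κ ≠ 0 → DomLE ν κ → pair β (P ν) Q = 0) → pair β f Q = 0 := by
  intro m
  induction m with
  | zero =>
    intro f c hf hm _
    have hem : {ν | ∃ κ, c κ ≠ 0 ∧ DomLE ν κ} = ∅ := by
      rwa [Nat.le_zero, Set.ncard_eq_zero (Set.toFinite _)] at hm
    have hc : ∀ κ, c κ = 0 := by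
      intro κ
      by_contra hκ
      have : κ ∈ {ν | ∃ κ, c κ ≠ 0 ∧ DomLE ν κ} := ⟨κ, hκ, DomLE.refl κ⟩
      rw [hem] at this
      exact this
    have : f = 0 := eq_zero_of_inVars f fun N => by
      rw [hf N]
      refine Finset.sum_eq_zero fun ν _ => ?_
      rw [hc ν, C_0, zero_mul]
    rw [this, pair_zero_left]
  | succ m ih =>
    intro f c hf hm hQ
    by_cases hex : ∃ κ, c κ ≠ 0
    · -- a maximal element of the support
      obtain ⟨κ, hκ, hmax⟩ : ∃ κ, c κ ≠ 0 ∧ ∀ ν, c ν ≠ 0 → DomLE κ ν → ν = κ := by
        by_contra hcon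
        push Not at hcon
        -- the sum of all partial sums increases strictly
        obtain ⟨κ, hκ, hκmax⟩ := Set.Finite.exists_maximalFor
          (fun ν : n.Partition => Set.ncard {ν' | DomLE ν' ν}) {ν | c ν ≠ 0} (Set.toFinite _)
          hex
        obtain ⟨ν, hν, hle, hne⟩ := hcon κ hκ
        have hsub : {ν' | DomLE ν' κ} ⊂ {ν' | DomLE ν' ν} := by
          refine ⟨fun x hx => DomLE.trans hx hle, fun hcontra => hne ?_⟩
          exact DomLE.antisymm (hcontra (DomLE.refl ν)) hle
        have hlt := Set.ncard_lt_ncard hsub (Set.toFinite _)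
        have := hκmax hν hlt.le
        simp only at this
        omega
      obtain ⟨c', hc', h1, htri⟩ := hP κ
      have hcomb := hf.sub_mul hc' (c κ)
      have hres := ih (f - C (c κ) * P κ) _ hcomb ?_ ?_
      · rw [pair_sub_left, pair_C_mul_left, hQ κ κ hκ (DomLE.refl κ), mul_zero, sub_zero] at hres
        exact hres
      · -- cardinality
        have hsub : {ν | ∃ κ', c κ' - c κ * c' κ' ≠ 0 ∧ DomLE ν κ'} ⊂
            {ν | ∃ κ, c κ ≠ 0 ∧ DomLE ν κ} := by
          refine ⟨?_, ?_⟩
          · rintro ν ⟨κ', hκ', hle⟩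
            by_cases h0 : c κ' = 0
            · have : c' κ' ≠ 0 := by
                intro h0'
                apply hκ'
                rw [h0, h0']
                ring
              exact ⟨κ, hκ, hle.trans (htri κ' this)⟩
            · exact ⟨κ', h0, hle⟩
          · intro hcontra
            have hmem : κ ∈ {ν | ∃ κ, c κ ≠ 0 ∧ DomLE ν κ} := ⟨κ, hκ, DomLE.refl κ⟩
            obtain ⟨κ', hκ', hle⟩ := hcontra hmem
            by_cases h0 : c κ' = 0
            · have h0' : c' κ' ≠ 0 := by
                intro h0'
                apply hκ'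
                rw [h0, h0']
                ring
              have := (htri κ' h0').antisymm hle
              subst this
              exact hκ h0
            · have := hmax κ' h0 hle
              subst this
              apply hκ'
              rw [h1]
              ring
        have := Set.ncard_lt_ncard hsub (Set.toFinite _)
        omega
      · intro ν κ' hκ' hle
        by_cases h0 : c κ' = 0
        · have h0' : c' κ' ≠ 0 := by
            intro h0'
            apply hκ'
            rw [h0, h0']
            ring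
          exact hQ ν κ hκ (hle.trans (htri κ' h0'))
        · exact hQ ν κ' h0 hle
    · push Not at hex
      have : f = 0 := eq_zero_of_inVars f fun N => by
        rw [hf N]
        refine Finset.sum_eq_zero fun ν _ => ?_
        rw [hex ν, C_0, zero_mul]
      rw [this, pair_zero_left]

/-- The members of a Jack family are Jack polynomials in the Gram-Schmidt sense. -/
lemma IsJackFamily.isJack {β : F} {n : ℕ} {P : n.Partition → SymF F} (h : IsJackFamily β P)
    (μ : n.Partition) : IsJack β μ (P μ) := by
  refine ⟨h.1 μ, ?_⟩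
  rintro f ⟨c, hf, h0, hle⟩
  rw [pair_comm]
  refine pair_comb_eq_zero β P h.1 (P μ) _ f c hf le_rfl ?_
  intro ν κ hκ hνκ
  apply h.2
  rintro rfl
  have h1 := hle κ hκ
  have := h1.antisymm hνκ
  subst this
  exact hκ h0

/-- Uniqueness of the Jack polynomial. -/
lemma IsJack.unique (ι : F →+* ℝ) {β : F} (hβ : 0 < ι β) {n : ℕ} {μ : n.Partition}
    {P Q : SymF F} (hP : IsJack β μ P) (hQ : IsJack β μ Q) : P = Q := by
  obtain ⟨c, hc, hc1, hcle⟩ := hP.1
  obtain ⟨c', hc', hc1', hcle'⟩ := hQ.1
  have hcomb := hc.sub_mul hc' 1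
  rw [C_1, one_mul] at hcomb
  have hbelow : Below μ (P - Q) := by
    refine ⟨_, hcomb, ?_, ?_⟩
    · simp only [hc1, hc1', mul_one, sub_self]
    · intro ν hν
      by_cases h0 : c ν = 0
      · apply hcle'
        intro h0'
        apply hν
        simp only [h0, h0', mul_zero, sub_zero]
      · exact hcle ν h0
  have h1 := hP.2 _ hbelow
  have h2 := hQ.2 _ hbelow
  have h3 : pair β (P - Q) (P - Q) = 0 := by
    rw [pair_sub_left, h1, h2, sub_zero]
  exact sub_eq_zero.mp (pair_self_eq_zero ι β hβ _ h3)

end Pool.Agent.Lib.MP_e60a9a_co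
end

section

/-!
# Gegenbauer polynomials and their orthogonality functional
-/

namespace Pool.Agent.Lib.MP_e60a9a_co

open Polynomial

variable {F : Type} [Field F]

/-- Pochhammer symbol `(a)_k`. -/
def poch (a : F) (k : ℕ) : F := ∏ i ∈ Finset.range k, (a + i)

lemma poch_zero (a : F) : poch a 0 = 1 := by simp [poch]

lemma poch_succ (a : F) (k : ℕ) : poch a (k + 1) = poch a k * (a + k) := by
  rw [poch, Finset.prod_range_succ, ← poch]

/-- the moments -/
def mom (θ : F) (i : ℕ) : F :=
  if i % 2 = 0 then (i.factorial : F) / (((i / 2).factorial : F) * poch (θ + 1) (i / 2)) else 0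

/-- the functional -/
noncomputable def Lf (θ : F) : F[X] →ₗ[F] F :=
  Polynomial.lsum fun i => mom θ i • LinearMap.id

lemma Lf_monomial (θ : F) (i : ℕ) (a : F) : Lf θ (monomial i a) = mom θ i * a := by
  simp [Lf, Polynomial.lsum_apply]

lemma Lf_X_pow (θ : F) (i : ℕ) : Lf θ (X ^ i) = mom θ i := by
  rw [← monomial_one_right_eq_X_pow, Lf_monomial, mul_one]

lemma Lf_C_mul (θ a : F) (q : F[X]) : Lf θ (C a * q) = a * Lf θ q := by
  rw [← smul_eq_C_mul, map_smul, smul_eq_mul]

/-- Gegenbauer polynomials `C_k` in `u`: `∑ C_k x^k = (1 - x u + x²)^{-θ}`. -/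
noncomputable def geg (θ : F) : ℕ → F[X]
  | 0 => 1
  | 1 => C θ * X
  | k + 2 => C ((k + 2 : F)⁻¹) *
      (C ((k : F) + 1 + θ) * (X * geg θ (k + 1)) - C ((k : F) + 2 * θ) * geg θ k)

lemma geg_zero (θ : F) : geg θ 0 = 1 := by rw [geg]

lemma geg_one (θ : F) : geg θ 1 = C θ * X := by rw [geg]

lemma geg_add_two (θ : F) (k : ℕ) : geg θ (k + 2) = C ((k + 2 : F)⁻¹) *
      (C ((k : F) + 1 + θ) * (X * geg θ (k + 1)) - C ((k : F) + 2 * θ) * geg θ k) := by
  rw [geg]

/-- the closed form of `L (C_k u^{k + 2 l})` -/
def clo (θ : F) (k l : ℕ) : F :=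
  poch (2 * θ) k * ((k + 2 * l).factorial : F) /
    ((k.factorial : F) * (l.factorial : F) * poch (θ + 1) (k + l))

variable [CharZero F]

lemma fac_ne (n : ℕ) : (n.factorial : F) ≠ 0 := by exact_mod_cast n.factorial_ne_zero

omit [CharZero F] in
lemma fac_succ (n : ℕ) : ((n + 1).factorial : F) = (n + 1) * (n.factorial : F) := by
  rw [Nat.factorial_succ]; push_cast; ring

omit [CharZero F] in
lemma poch_ne {a : F} (h : ∀ j : ℕ, a + j ≠ 0) (k : ℕ) : poch a k ≠ 0 :=
  Finset.prod_ne_zero_iff.mpr fun i _ => h i

lemma geg_orth (θ : F) (hθ : ∀ j : ℕ, θ + 1 + j ≠ 0) (k : ℕ) :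
    (∀ i, i < k → Lf θ (geg θ k * X ^ i) = 0) ∧
    (∀ l, Lf θ (geg θ k * X ^ (k + 2 * l)) = clo θ k l) ∧
    (∀ l, Lf θ (geg θ k * X ^ (k + 2 * l + 1)) = 0) := by
  have hp : ∀ n, poch (θ + 1) n ≠ 0 := poch_ne hθ
  induction k using Nat.strong_induction_on with
  | _ k ih =>
    match k, ih with
    | 0, _ =>
      refine ⟨fun i hi => absurd hi (by omega), fun l => ?_, fun l => ?_⟩
      · rw [geg_zero, one_mul, Lf_X_pow, mom, if_pos (by omega), clo, poch_zero,
          show (0 + 2 * l) / 2 = l by omega, zero_add, zero_add, Nat.factorial_zero]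
        simp
      · rw [geg_zero, one_mul, Lf_X_pow, mom, if_neg (by omega)]
    | 1, _ =>
      have h1 : ∀ i, geg θ 1 * X ^ i = C θ * X ^ (i + 1) := by
        intro i; rw [geg_one, pow_succ]; ring
      refine ⟨fun i hi => ?_, fun l => ?_, fun l => ?_⟩
      · have : i = 0 := by omega
        subst this
        rw [h1, Lf_C_mul, Lf_X_pow, mom, if_neg (by omega), mul_zero]
      · rw [h1, Lf_C_mul, Lf_X_pow, mom, if_pos (by omega), clo,
          show (1 + 2 * l + 1) / 2 = l + 1 by omega, show 1 + l = l + 1 by omega,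
          show 1 + 2 * l + 1 = (1 + 2 * l) + 1 by omega, fac_succ, fac_succ (F := F) l,
          poch_succ (2 * θ), poch_zero, Nat.factorial_one]
        have h2 := hp (l + 1)
        have h3 := fac_ne (F := F) l
        have h4 : (l + 1 : F) ≠ 0 := by exact_mod_cast Nat.succ_ne_zero l
        push_cast
        field_simp
        ring
      · rw [h1, Lf_C_mul, Lf_X_pow, mom, if_neg (by omega), mul_zero]
    | k + 2, ih =>
      obtain ⟨a0, a1, a2⟩ := ih k (by omega)
      obtain ⟨b0, b1, b2⟩ := ih (k + 1) (by omega)
      have hk2 : (k + 2 : F) ≠ 0 := by exact_mod_cast Nat.succ_ne_zero (k + 1)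
      have hrec : ∀ i, Lf θ (geg θ (k + 2) * X ^ i) = (k + 2 : F)⁻¹ *
          (((k : F) + 1 + θ) * Lf θ (geg θ (k + 1) * X ^ (i + 1)) -
            ((k : F) + 2 * θ) * Lf θ (geg θ k * X ^ i)) := by
        intro i
        rw [← Lf_C_mul, ← Lf_C_mul, ← map_sub, ← Lf_C_mul, geg_add_two]
        congr 1
        rw [pow_succ]
        ring
      refine ⟨fun i hi => ?_, fun l => ?_, fun l => ?_⟩
      · rw [hrec]
        rcases lt_trichotomy i k with h | h | h
        · rw [b0 (i + 1) (by omega), a0 i h]
          ring
        · subst h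
          have e1 := b1 0
          have e2 := a1 0
          rw [mul_zero, add_zero] at e1 e2
          rw [e1, e2, clo, clo]
          simp only [mul_zero, add_zero, Nat.factorial_zero, Nat.cast_one, mul_one]
          rw [poch_succ (2 * θ), poch_succ (θ + 1)]
          have h1 := hp i
          have h2 := hθ i
          have h3 := fac_ne (F := F) i
          have h4 := fac_ne (F := F) (i + 1)
          have h5 : (i : F) + 1 + θ ≠ 0 := by
            intro h0; apply h2; rw [← h0]; ring
          have h6 : θ + 1 + (i : F) = (i : F) + 1 + θ := by ring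
          rw [h6]
          field_simp
          ring
        · have hi' : i = k + 1 := by omega
          subst hi'
          have e1 := b2 0
          have e2 := a2 0
          rw [mul_zero, add_zero] at e1 e2
          rw [e1, e2]
          ring
      · rw [hrec]
        have e1 := b1 (l + 1)
        have e2 := a1 (l + 1)
        rw [show k + 1 + 2 * (l + 1) = k + 2 + 2 * l + 1 by omega] at e1
        rw [show k + 2 * (l + 1) = k + 2 + 2 * l by omega] at e2
        rw [e1, e2, clo, clo, clo, show k + 1 + 2 * (l + 1) = (k + 2 + 2 * l) + 1 by omega,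
          show k + 2 * (l + 1) = k + 2 + 2 * l by omega, show k + 1 + (l + 1) = k + l + 1 + 1 by omega,
          show k + 2 + l = k + l + 1 + 1 by omega, show k + (l + 1) = k + l + 1 by omega,
          fac_succ (F := F) (k + 2 + 2 * l), show k + 2 = k + 1 + 1 by omega,
          fac_succ (F := F) (k + 1), fac_succ (F := F) k, fac_succ (F := F) l,
          poch_succ (2 * θ) (k + 1), poch_succ (2 * θ) k, poch_succ (θ + 1) (k + l + 1)]
        have h1 := hp (k + l + 1)
        have h2 := hθ (k + l + 1)
        have h3 := fac_ne (F := F) k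
        have h4 := fac_ne (F := F) l
        have h5 : (l + 1 : F) ≠ 0 := by exact_mod_cast Nat.succ_ne_zero l
        have h6 : (k + 1 : F) ≠ 0 := by exact_mod_cast Nat.succ_ne_zero k
        have h7 := fac_ne (F := F) (k + 1 + 1 + 2 * l)
        push_cast at h2 ⊢
        have h8 : (k : F) + 1 + 1 ≠ 0 := by
          have : (k : F) + 1 + 1 = k + 2 := by ring
          rw [this]; exact hk2
        field_simp
        ring
      · rw [hrec]
        have e1 := b2 (l + 1)
        have e2 := a2 (l + 1)
        rw [show k + 1 + 2 * (l + 1) + 1 = k + 2 + 2 * l + 1 + 1 by omega] at e1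
        rw [show k + 2 * (l + 1) + 1 = k + 2 + 2 * l + 1 by omega] at e2
        rw [e1, e2]
        ring

omit [CharZero F] in
lemma natDegree_geg_le (θ : F) (k : ℕ) : (geg θ k).natDegree ≤ k := by
  induction k using Nat.strong_induction_on with
  | _ k ih =>
    match k, ih with
    | 0, _ => rw [geg_zero]; simp
    | 1, _ =>
      rw [geg_one]
      exact (natDegree_C_mul_le _ _).trans natDegree_X_le
    | k + 2, ih =>
      rw [geg_add_two]
      refine (natDegree_C_mul_le _ _).trans ((natDegree_sub_le _ _).trans (max_le ?_ ?_))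
      · refine (natDegree_C_mul_le _ _).trans ((natDegree_mul_le).trans ?_)
        have := ih (k + 1) (by omega)
        have h2 := natDegree_X_le (R := F)
        omega
      · refine (natDegree_C_mul_le _ _).trans ?_
        have := ih k (by omega)
        omega

lemma coeff_geg_self (θ : F) (k : ℕ) : (geg θ k).coeff k = poch θ k / (k.factorial : F) := by
  induction k using Nat.strong_induction_on with
  | _ k ih =>
    match k, ih with
    | 0, _ => rw [geg_zero, poch_zero]; simp
    | 1, _ => rw [geg_one, poch_succ, poch_zero]; simp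
    | k + 2, ih =>
      rw [geg_add_two, coeff_C_mul, coeff_sub, coeff_C_mul, coeff_C_mul, coeff_X_mul,
        ih (k + 1) (by omega), coeff_eq_zero_of_natDegree_lt (n := k + 2) (p := geg θ k)
          (lt_of_le_of_lt (natDegree_geg_le θ k) (by omega)), poch_succ θ (k + 1),
        fac_succ (F := F) (k + 1)]
      have h1 := fac_ne (F := F) (k + 1)
      have hk2 : (k + 2 : F) ≠ 0 := by exact_mod_cast Nat.succ_ne_zero (k + 1)
      push_cast
      have h8 : (k : F) + 1 + 1 = k + 2 := by ring
      rw [h8]
      field_simp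
      ring

/-- orthogonality against polynomials of degree at most `k` -/
lemma Lf_geg_mul (θ : F) (hθ : ∀ j : ℕ, θ + 1 + j ≠ 0) (k : ℕ) (q : F[X])
    (hq : q.natDegree ≤ k) : Lf θ (geg θ k * q) = q.coeff k * clo θ k 0 := by
  have h1 : q = ∑ i ∈ Finset.range (k + 1), C (q.coeff i) * X ^ i := by
    conv_lhs => rw [q.as_sum_range_C_mul_X_pow' (n := k + 1) (by omega)]
  conv_lhs => rw [h1, Finset.mul_sum, map_sum]
  rw [Finset.sum_range_succ]
  have h2 : ∑ i ∈ Finset.range k, Lf θ (geg θ k * (C (q.coeff i) * X ^ i)) = 0 := by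
    refine Finset.sum_eq_zero fun i hi => ?_
    rw [show geg θ k * (C (q.coeff i) * X ^ i) = C (q.coeff i) * (geg θ k * X ^ i) by ring,
      Lf_C_mul, (geg_orth θ hθ k).1 i (Finset.mem_range.mp hi), mul_zero]
  rw [h2, zero_add, show geg θ k * (C (q.coeff k) * X ^ k) =
    C (q.coeff k) * (geg θ k * X ^ k) by ring, Lf_C_mul]
  have h3 := (geg_orth θ hθ k).2.1 0
  rw [mul_zero, add_zero] at h3
  rw [h3]

lemma Lf_geg_mul_eq_zero (θ : F) (hθ : ∀ j : ℕ, θ + 1 + j ≠ 0) (k : ℕ) (q : F[X])
    (hq : q.natDegree < k) : Lf θ (geg θ k * q) = 0 := by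
  rw [Lf_geg_mul θ hθ k q hq.le, coeff_eq_zero_of_natDegree_lt hq, zero_mul]

/-- the norm of `C_k` -/
lemma Lf_geg_sq (θ : F) (hθ : ∀ j : ℕ, θ + 1 + j ≠ 0) (k : ℕ) :
    Lf θ (geg θ k * geg θ k) =
      poch θ k * poch (2 * θ) k / ((k.factorial : F) * poch (θ + 1) k) := by
  rw [Lf_geg_mul θ hθ k _ (natDegree_geg_le θ k), coeff_geg_self, clo]
  have h1 := fac_ne (F := F) k
  have h2 := poch_ne hθ k
  simp only [mul_zero, add_zero, Nat.factorial_zero, Nat.cast_one, mul_one]
  field_simp

end Pool.Agent.Lib.MP_e60a9a_co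
end
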