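import Mathlib
import Pool.Agent.Lib.MP_e60a9a_co.Gegen

section

/-!
# Two variables and the Gegenbauer functional
-/

namespace Pool.Agent.Lib.MP_e60a9a_co

open MvPolynomial

variable {F : Type} [Field F]

/-- `s^k + s^{-k}` as a polynomial in `u = s + s⁻¹`. -/
noncomputable def dick : ℕ → Polynomial F
  | 0 => 2
  | 1 => Polynomial.X
  | k + 2 => Polynomial.X * dick (k + 1) - dick k

lemma dick_add_two (k : ℕ) : (dick (k + 2) : Polynomial F) =
    Polynomial.X * dick (k + 1) - dick k := by rw [dick]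

/-- for integer index -/
noncomputable def dickZ (k : ℤ) : Polynomial F := dick k.natAbs

lemma dickZ_rec (k : ℤ) : (Polynomial.X : Polynomial F) * dickZ k = dickZ (k + 1) + dickZ (k - 1) := by
  unfold dickZ
  rcases lt_trichotomy k 0 with h | h | h
  · obtain ⟨m, rfl⟩ : ∃ m : ℕ, k = -((m : ℤ) + 1) := ⟨(-k - 1).toNat, by omega⟩
    rw [show (-((m : ℤ) + 1)).natAbs = m + 1 by omega,
      show (-((m : ℤ) + 1) + 1).natAbs = m by omega,
      show (-((m : ℤ) + 1) - 1).natAbs = m + 2 by omega, dick_add_two]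
    ring
  · subst h
    rw [show (0 : ℤ).natAbs = 0 by rfl, show (0 + 1 : ℤ).natAbs = 1 by rfl,
      show (0 - 1 : ℤ).natAbs = 1 by rfl, dick, dick]
    ring
  · obtain ⟨m, rfl⟩ : ∃ m : ℕ, k = (m : ℤ) + 1 := ⟨(k - 1).toNat, by omega⟩
    rw [show ((m : ℤ) + 1).natAbs = m + 1 by omega,
      show ((m : ℤ) + 1 + 1).natAbs = m + 2 by omega,
      show ((m : ℤ) + 1 - 1).natAbs = m by omega, dick_add_two]
    ring

/-- the linear map `s^i t^j ↦ dick |i - j|` -/
noncomputable def Phi : MvPolynomial (Fin 2) F →ₗ[F] Polynomial F :=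
  (basisMonomials (Fin 2) F).constr F fun c => dickZ ((c 0 : ℤ) - (c 1 : ℤ))

lemma Phi_monomial (c : Fin 2 →₀ ℕ) (a : F) :
    Phi (monomial c a) = Polynomial.C a * dickZ ((c 0 : ℤ) - (c 1 : ℤ)) := by
  have h : (monomial c a : MvPolynomial (Fin 2) F) = a • basisMonomials (Fin 2) F c := by
    rw [coe_basisMonomials, smul_monomial, smul_eq_mul, mul_one]
  rw [h, map_smul, Phi, Module.Basis.constr_basis, Polynomial.smul_eq_C_mul]

lemma Phi_one : Phi (1 : MvPolynomial (Fin 2) F) = 2 := by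
  have h : (1 : MvPolynomial (Fin 2) F) = monomial 0 1 := rfl
  rw [h, Phi_monomial]
  simp [dickZ, dick]

/-- `f ∈ F[s,t]` acts like `q(u)`. -/
def Act (f : MvPolynomial (Fin 2) F) (q : Polynomial F) : Prop :=
  ∀ g, Phi (f * g) = q * Phi g

lemma Act.add {f f' : MvPolynomial (Fin 2) F} {q q' : Polynomial F} (h : Act f q)
    (h' : Act f' q') : Act (f + f') (q + q') := by
  intro g
  rw [add_mul, map_add, h g, h' g, add_mul]

lemma Act.mul {f f' : MvPolynomial (Fin 2) F} {q q' : Polynomial F} (h : Act f q)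
    (h' : Act f' q') : Act (f * f') (q * q') := by
  intro g
  rw [mul_assoc, h, h' g, mul_assoc]

lemma Act.C (a : F) : Act (C a) (Polynomial.C a) := by
  intro g
  rw [← smul_eq_C_mul, map_smul, Polynomial.smul_eq_C_mul]

lemma Act.one : Act (1 : MvPolynomial (Fin 2) F) 1 := by
  intro g
  rw [one_mul, one_mul]

lemma Act.neg {f : MvPolynomial (Fin 2) F} {q : Polynomial F} (h : Act f q) : Act (-f) (-q) := by
  intro g
  rw [neg_mul, map_neg, h g, neg_mul]

lemma Act.sub {f f' : MvPolynomial (Fin 2) F} {q q' : Polynomial F} (h : Act f q)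
    (h' : Act f' q') : Act (f - f') (q - q') := by
  rw [sub_eq_add_neg, sub_eq_add_neg]
  exact h.add h'.neg

lemma Act.prod {ι : Type*} (s : Finset ι) {f : ι → MvPolynomial (Fin 2) F}
    {q : ι → Polynomial F} (h : ∀ i ∈ s, Act (f i) (q i)) : Act (∏ i ∈ s, f i) (∏ i ∈ s, q i) := by
  classical
  induction s using Finset.induction_on with
  | empty => simpa using Act.one
  | insert a s ha ih =>
    rw [Finset.prod_insert ha, Finset.prod_insert ha]
    exact (h a (Finset.mem_insert_self _ _)).mul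
      (ih fun i hi => h i (Finset.mem_insert_of_mem hi))

lemma Act.of_monomial {f : MvPolynomial (Fin 2) F} {q : Polynomial F}
    (h : ∀ c, Phi (f * monomial c 1) = q * Phi (monomial c 1)) : Act f q := by
  intro g
  induction g using MvPolynomial.induction_on' with
  | monomial c a =>
    have h1 : (monomial c a : MvPolynomial (Fin 2) F) = MvPolynomial.C a * monomial c 1 := by
      rw [C_mul_monomial, mul_one]
    rw [h1, show f * (MvPolynomial.C a * monomial c 1) =
      MvPolynomial.C a * (f * monomial c 1) by ring, ← smul_eq_C_mul, map_smul, h,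
      ← smul_eq_C_mul, map_smul, mul_smul_comm]
  | add p q hp hq => rw [mul_add, map_add, hp, hq, map_add, mul_add]

lemma Act.e1 : Act (X 0 + X 1 : MvPolynomial (Fin 2) F) Polynomial.X := by
  apply Act.of_monomial
  intro c
  rw [add_mul, map_add, X, X, monomial_mul, monomial_mul, one_mul, Phi_monomial, Phi_monomial,
    Phi_monomial, Polynomial.C_1, one_mul, one_mul, one_mul, dickZ_rec]
  congr 1
  · congr 1
    simp
    ring
  · congr 1
    simp
    ring

lemma Act.e2 : Act (X 0 * X 1 : MvPolynomial (Fin 2) F) 1 := by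
  apply Act.of_monomial
  intro c
  rw [X, X, monomial_mul, monomial_mul, one_mul, one_mul, Phi_monomial, Phi_monomial, one_mul]
  congr 2
  simp

/-- the functional on `F[s,t]` -/
noncomputable def L2 (θ : F) : MvPolynomial (Fin 2) F →ₗ[F] F := (2⁻¹ : F) • (Lf θ ∘ₗ Phi)

lemma L2_apply (θ : F) (f : MvPolynomial (Fin 2) F) : L2 θ f = 2⁻¹ * Lf θ (Phi f) := rfl

variable [CharZero F]

lemma L2_act (θ : F) {f : MvPolynomial (Fin 2) F} {q : Polynomial F} (h : Act f q) :
    L2 θ f = Lf θ q := by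
  have h1 := h 1
  rw [mul_one, Phi_one] at h1
  rw [L2_apply, h1, show q * 2 = Polynomial.C 2 * q by
    rw [mul_comm]; rfl, Lf_C_mul, ← mul_assoc, inv_mul_cancel₀ two_ne_zero, one_mul]

/-! ### The images of `h_k` and `e_k` -/

/-- the symmetric function `h_k` with `p_r ↦ θ (s^r + t^r)` -/
noncomputable def hh (θ : F) (k : ℕ) : MvPolynomial (Fin 2) F := inVars 2 (scale θ (hsym k))

omit [CharZero F] in
lemma inVars_C (N : ℕ) (a : F) : inVars N (C a) = C a := by
  rw [inVars]; exact aeval_C _ _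

omit [CharZero F] in
lemma inVars_scale_X (θ : F) (i : ℕ) :
    inVars 2 (scale θ (X i)) = C θ * (X 0 ^ (i + 1) + X 1 ^ (i + 1)) := by
  rw [scale, aeval_X, map_mul, inVars_C, inVars, aeval_X, psum, Fin.sum_univ_two]

omit [CharZero F] in
lemma hh_zero (θ : F) : hh θ 0 = 1 := by rw [hh, hsym_zero, map_one, map_one]

lemma newton_hh (θ : F) (k : ℕ) : (C (k : F) : MvPolynomial (Fin 2) F) * hh θ k =
    C θ * ∑ i ∈ Finset.range k, (X 0 ^ (i + 1) + X 1 ^ (i + 1)) * hh θ (k - 1 - i) := by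
  have h := congrArg (fun f => inVars 2 (scale θ f)) (newton_h (F := F) k)
  simp only [map_mul, map_sum, inVars_scale_X] at h
  have h1 : scale θ (C (k : F) : SymF F) = C (k : F) := by
    rw [scale]; exact aeval_C _ _
  rw [h1, inVars_C] at h
  unfold hh
  rw [h, Finset.mul_sum]
  refine Finset.sum_congr rfl fun i _ => ?_
  ring

lemma hh_rec (θ : F) (k : ℕ) : (C ((k : F) + 2) : MvPolynomial (Fin 2) F) * hh θ (k + 2) =
    C ((k : F) + 1 + θ) * ((X 0 + X 1) * hh θ (k + 1)) -
      C ((k : F) + 2 * θ) * ((X 0 * X 1) * hh θ k) := by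
  have h2 := newton_hh θ (k + 2)
  have h1 := newton_hh θ (k + 1)
  have h0 := newton_hh θ k
  rw [Finset.sum_range_succ', Finset.sum_range_succ'] at h2
  rw [Finset.sum_range_succ'] at h1
  have e2 : ∀ i, hh θ (k + 2 - 1 - (i + 1 + 1)) = hh θ (k - 1 - i) := by
    intro i; congr 1; omega
  have e1 : ∀ i, hh θ (k + 1 - 1 - (i + 1)) = hh θ (k - 1 - i) := by
    intro i; congr 1; omega
  simp only [e2] at h2
  simp only [e1] at h1
  rw [show k + 2 - 1 - (0 + 1) = k by omega, show k + 2 - 1 - 0 = k + 1 by omega] at h2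
  rw [show k + 1 - 1 - 0 = k by omega] at h1
  have hS : ∑ i ∈ Finset.range k,
        ((X 0 ^ (i + 1 + 1 + 1) + X 1 ^ (i + 1 + 1 + 1) : MvPolynomial (Fin 2) F)) *
          hh θ (k - 1 - i) =
      (X 0 + X 1) * ∑ i ∈ Finset.range k, (X 0 ^ (i + 1 + 1) + X 1 ^ (i + 1 + 1)) *
          hh θ (k - 1 - i) -
      (X 0 * X 1) * ∑ i ∈ Finset.range k, (X 0 ^ (i + 1) + X 1 ^ (i + 1)) *
          hh θ (k - 1 - i) := by
    rw [Finset.mul_sum, Finset.mul_sum, ← Finset.sum_sub_distrib]
    refine Finset.sum_congr rfl fun i _ => ?_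
    ring
  rw [hS] at h2
  push_cast at h2 h1
  simp only [C_add, C_mul] at *
  have hc : (C 2 : MvPolynomial (Fin 2) F) = 2 := rfl
  simp only [hc, C_1] at *
  linear_combination h2 - (X 0 + X 1) * h1 + (X 0 * X 1) * h0

lemma act_hh (θ : F) (k : ℕ) : Act (hh θ k) (geg θ k) := by
  induction k using Nat.strong_induction_on with
  | _ k ih =>
    match k, ih with
    | 0, _ => rw [hh_zero, geg_zero]; exact Act.one
    | 1, _ =>
      have h := newton_hh θ 1
      simp only [Nat.cast_one, C_1, one_mul, Finset.range_one, Finset.sum_singleton, zero_add,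
        pow_one] at h
      rw [h, geg_one, show 1 - 1 - 0 = 0 by omega, hh_zero, mul_one]
      exact (Act.C θ).mul Act.e1
    | k + 2, ih =>
      have hk2 : (k + 2 : F) ≠ 0 := by exact_mod_cast Nat.succ_ne_zero (k + 1)
      have h1 : hh θ (k + 2) = C ((k + 2 : F)⁻¹) *
          (C ((k : F) + 1 + θ) * ((X 0 + X 1) * hh θ (k + 1)) -
            C ((k : F) + 2 * θ) * ((X 0 * X 1) * hh θ k)) := by
        rw [← hh_rec, ← mul_assoc, ← C_mul, inv_mul_cancel₀ hk2, C_1, one_mul]
      rw [h1, geg_add_two]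
      refine (Act.C _).mul (Act.sub ((Act.C _).mul (Act.e1.mul (ih (k + 1) (by omega)))) ?_)
      have := (Act.C ((k : F) + 2 * θ)).mul (Act.e2.mul (ih k (by omega)))
      rwa [one_mul] at this

lemma homog_hh (θ : F) (k : ℕ) : (hh θ k).IsHomogeneous k := by
  induction k using Nat.strong_induction_on with
  | _ k ih =>
    rcases Nat.eq_zero_or_pos k with rfl | hk
    · rw [hh_zero]; exact isHomogeneous_one _ _
    · have hk0 : (k : F) ≠ 0 := by exact_mod_cast hk.ne'
      have h1 : hh θ k = C ((k : F)⁻¹) * (C θ * ∑ i ∈ Finset.range k,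
          (X 0 ^ (i + 1) + X 1 ^ (i + 1)) * hh θ (k - 1 - i)) := by
        rw [← newton_hh, ← mul_assoc, ← C_mul, inv_mul_cancel₀ hk0, C_1, one_mul]
      rw [h1]
      refine IsHomogeneous.C_mul (IsHomogeneous.C_mul (IsHomogeneous.sum _ _ _ fun i hi => ?_) _) _
      rw [Finset.mem_range] at hi
      have h2 : ((X 0 : MvPolynomial (Fin 2) F) ^ (i + 1)).IsHomogeneous (i + 1) := by
        simpa using (isHomogeneous_X F (0 : Fin 2)).pow (i + 1)
      have h3 : ((X 1 : MvPolynomial (Fin 2) F) ^ (i + 1)).IsHomogeneous (i + 1) := by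
        simpa using (isHomogeneous_X F (1 : Fin 2)).pow (i + 1)
      have h4 := (h2.add h3).mul (ih (k - 1 - i) (by omega))
      rwa [show i + 1 + (k - 1 - i) = k by omega] at h4

/-! ### The kernel function -/

/-- the exponent vector `(i, j)` -/
noncomputable def d2 (i j : ℕ) : Fin 2 →₀ ℕ := Finsupp.equivFunOnFinite.symm ![i, j]

omit [CharZero F] in
@[simp] lemma d2_zero (i j : ℕ) : d2 i j 0 = i := rfl

@[simp] lemma d2_one (i j : ℕ) : d2 i j 1 = j := rfl

omit [CharZero F] in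
lemma L2_homog (θ : F) (n : ℕ) (f : MvPolynomial (Fin 2) F) (hf : f.IsHomogeneous n) :
    L2 θ f = ∑ i ∈ Finset.range (n + 1),
      L2 θ (monomial (d2 i (n - i)) 1) * coeff (d2 i (n - i)) f := by
  classical
  have h1 : f = ∑ i ∈ Finset.range (n + 1), monomial (d2 i (n - i)) (coeff (d2 i (n - i)) f) := by
    ext c
    rw [coeff_sum]
    simp only [coeff_monomial]
    by_cases hc : c 0 + c 1 = n
    · rw [Finset.sum_eq_single (c 0)]
      · rw [if_pos]
        · congr 1
          ext a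
          fin_cases a
          · rfl
          · simp; omega
        · ext a
          fin_cases a
          · rfl
          · simp; omega
      · intro i _ hi
        rw [if_neg]
        intro h
        apply hi
        rw [← h]
        rfl
      · intro h
        rw [Finset.mem_range] at h
        omega
    · have h0 : coeff c f = 0 := by
        apply hf.coeff_eq_zero
        rw [Finsupp.degree_eq_sum, Fin.sum_univ_two]
        exact hc
      rw [h0]
      symm
      refine Finset.sum_eq_zero fun i hi => ?_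
      rw [Finset.mem_range] at hi
      rw [if_neg]
      intro h
      apply hc
      rw [← h]
      simp
      omega
  conv_lhs => rw [h1, map_sum]
  refine Finset.sum_congr rfl fun i _ => ?_
  have h2 : (monomial (d2 i (n - i)) (coeff (d2 i (n - i)) f) : MvPolynomial (Fin 2) F) =
      coeff (d2 i (n - i)) f • monomial (d2 i (n - i)) 1 := by
    rw [smul_monomial, smul_eq_mul, mul_one]
  rw [h2, map_smul, smul_eq_mul, mul_comm]

/-- the kernel `G` of degree `n` -/
noncomputable def GG (θ : F) (n : ℕ) : SymF F :=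
  ∑ i ∈ Finset.range (n + 1), C (L2 θ (monomial (d2 i (n - i)) 1)) *
    scale θ (hsym i * hsym (n - i))

lemma pair_GG (θ β : F) (hβ : β * θ = 1) (n : ℕ) (f : SymF F) :
    pair β (GG θ n) f = ∑ i ∈ Finset.range (n + 1),
      L2 θ (monomial (d2 i (n - i)) 1) * coeff (d2 i (n - i)) (inVars 2 f) := by
  rw [GG, pair_sum_left]
  refine Finset.sum_congr rfl fun i _ => ?_
  rw [pair_C_mul_left, pair_scale_left, hβ, coeff_inVars, pair_comm]
  congr 2
  rw [hprod, Fin.prod_univ_two]
  rfl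

lemma pair_GG_homog (θ β : F) (hβ : β * θ = 1) (n : ℕ) (f : SymF F)
    (hf : (inVars 2 f).IsHomogeneous n) : pair β (GG θ n) f = L2 θ (inVars 2 f) := by
  rw [pair_GG θ β hβ, L2_homog θ n _ hf]

/-- Hall pairings with `G`. -/
lemma pair_one_GG (θ β : F) (hβ : β * θ = 1) (n : ℕ) (f : SymF F)
    (hf : (inVars 2 (scale θ f)).IsHomogeneous n) :
    pair 1 (GG θ n) f = L2 θ (inVars 2 (scale θ f)) := by
  rw [← pair_GG_homog θ β hβ n _ hf, pair_scale_right, hβ]

/-- the coefficients of `G` -/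
lemma coeff_GG (θ β : F) (hβ : β * θ = 1) (n N : ℕ) (d : Fin N →₀ ℕ) :
    coeff d (inVars N (GG θ n)) =
      if ∑ a, d a = n then Lf θ (∏ a, geg θ (d a)) else 0 := by
  rw [coeff_inVars]
  have h1 : inVars 2 (scale θ (hprod d)) = ∏ a, hh θ (d a) := by
    rw [hprod, map_prod, map_prod]
    rfl
  have h2 : (∏ a, hh θ (d a)).IsHomogeneous (∑ a, d a) :=
    IsHomogeneous.prod _ _ _ fun a _ => homog_hh θ (d a)
  by_cases h : ∑ a, d a = n
  · rw [if_pos h, pair_one_GG θ β hβ n _ (by rw [h1, ← h]; exact h2), h1,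
      L2_act θ (Act.prod _ fun a _ => act_hh θ (d a))]
  · rw [if_neg h]
    have h3 : pair 1 (GG θ n) (hprod d) = pair β (GG θ n) (scale θ (hprod d)) := by
      rw [pair_scale_right, hβ]
    rw [h3, pair_GG θ β hβ, h1]
    refine Finset.sum_eq_zero fun i hi => ?_
    rw [Finset.mem_range] at hi
    rw [h2.coeff_eq_zero, mul_zero]
    rw [Finsupp.degree_eq_sum, Fin.sum_univ_two, d2_zero, d2_one]
    omega

end Pool.Agent.Lib.MP_e60a9a_co
end

section

/-!
# The Jacobi-Trudi determinant of the partition `(2⁸)`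
-/

namespace Pool.Agent.Lib.MP_e60a9a_co

open MvPolynomial

variable {F : Type} [Field F]

/-- elementary symmetric functions by Newton's identity -/
noncomputable def esym : ℕ → SymF F
  | 0 => 1
  | k + 1 => C ((k + 1 : F)⁻¹) * ∑ i : Fin (k + 1), (-1) ^ (i : ℕ) * X (i : ℕ) * esym (k - i)

lemma esym_zero : (esym 0 : SymF F) = 1 := by rw [esym]

lemma esym_succ (k : ℕ) : (esym (k + 1) : SymF F) =
    C ((k + 1 : F)⁻¹) * ∑ i ∈ Finset.range (k + 1), (-1) ^ i * X i * esym (k - i) := by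
  rw [esym, Finset.sum_range]

variable [CharZero F]

lemma newton_e (k : ℕ) : C (k : F) * (esym k : SymF F) =
    ∑ i ∈ Finset.range k, (-1) ^ i * X i * esym (k - 1 - i) := by
  cases k with
  | zero => simp
  | succ k =>
    rw [esym_succ, ← mul_assoc, ← C_mul]
    have h : ((k + 1 : ℕ) : F) * (k + 1 : F)⁻¹ = 1 := by
      push_cast
      exact mul_inv_cancel₀ (by exact_mod_cast Nat.succ_ne_zero k)
    rw [h, C_1, one_mul]
    rfl

/-- `∑ (-1)^i e_i h_{k-i} = δ_{k0}` -/
lemma sum_e_h (k : ℕ) : ∑ i ∈ Finset.range (k + 1), (-1) ^ i * (esym i : SymF F) * hsym (k - i) =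
    if k = 0 then 1 else 0 := by
  set H : PowerSeries (SymF F) := PowerSeries.mk fun k => hsym k with hH
  set E : PowerSeries (SymF F) := PowerSeries.mk fun k => (-1) ^ k * esym k with hE
  set P : PowerSeries (SymF F) := PowerSeries.mk fun k => X k with hP
  have h1 : PowerSeries.derivative (SymF F) H = P * H := by
    ext1 n
    rw [PowerSeries.coeff_derivative, PowerSeries.coeff_mul,
      Finset.Nat.sum_antidiagonal_eq_sum_range_succ_mk, hH, PowerSeries.coeff_mk]
    have := newton_h (F := F) (n + 1)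
    rw [show n + 1 - 1 = n by omega] at this
    simp only [hP, PowerSeries.coeff_mk]
    rw [← this]
    have hc : (C ((n + 1 : ℕ) : F) : SymF F) = (n : SymF F) + 1 := by simp
    rw [hc]
    ring
  have h2 : PowerSeries.derivative (SymF F) E = - (P * E) := by
    ext1 n
    rw [PowerSeries.coeff_derivative, map_neg, PowerSeries.coeff_mul,
      Finset.Nat.sum_antidiagonal_eq_sum_range_succ_mk, hE, PowerSeries.coeff_mk]
    have := newton_e (F := F) (n + 1)
    rw [show n + 1 - 1 = n by omega] at this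
    simp only [hP, PowerSeries.coeff_mk]
    have hc : (C ((n + 1 : ℕ) : F) : SymF F) = (n : SymF F) + 1 := by simp
    rw [hc] at this
    rw [show (-1 : SymF F) ^ (n + 1) * esym (n + 1) * ((n : SymF F) + 1) =
      (-1) ^ (n + 1) * (((n : SymF F) + 1) * esym (n + 1)) by ring, this, Finset.mul_sum,
      ← Finset.sum_neg_distrib]
    refine Finset.sum_congr rfl fun i hi => ?_
    rw [Finset.mem_range] at hi
    obtain ⟨j, hj⟩ : ∃ j, n = i + j := ⟨n - i, by omega⟩
    subst hj
    rw [show i + j - i = j by omega, pow_succ, pow_add]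
    have : (-1 : SymF F) ^ i * (-1) ^ i = 1 := by rw [← pow_add, ← two_mul]; simp
    linear_combination (- (-1 : SymF F) ^ j * X i * esym j) * this
  have h3 : H * E = 1 := by
    apply PowerSeries.derivative.ext
    · rw [PowerSeries.derivative_one, Derivation.leibniz, h1, h2]
      simp only [smul_eq_mul]
      ring
    · rw [map_mul, hH, hE]
      simp [hsym_zero, esym_zero]
  have h4 := congrArg (PowerSeries.coeff k) h3
  rw [PowerSeries.coeff_one, mul_comm, PowerSeries.coeff_mul,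
    Finset.Nat.sum_antidiagonal_eq_sum_range_succ_mk] at h4
  rw [← h4]
  refine Finset.sum_congr rfl fun i _ => ?_
  simp only [hH, hE, PowerSeries.coeff_mk]

omit [CharZero F] in
lemma hZ_ofNat (k : ℕ) : (hZ (k : ℤ) : SymF F) = hsym k := by
  rw [hZ, if_pos (by omega)]
  simp

omit [CharZero F] in
lemma hZ_neg {k : ℤ} (hk : k < 0) : (hZ k : SymF F) = 0 := by
  rw [hZ, if_neg (by omega)]

/-- Toeplitz matrix of the `h_k` -/
noncomputable def TH : Matrix (Fin 10) (Fin 10) (SymF F) :=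
  Matrix.of fun i j => hZ ((j : ℤ) - (i : ℤ))

/-- Toeplitz matrix of the `(-1)^k e_k` -/
noncomputable def TE : Matrix (Fin 10) (Fin 10) (SymF F) :=
  Matrix.of fun i j => if (i : ℕ) ≤ j then (-1) ^ ((j : ℕ) - i) * esym ((j : ℕ) - i) else 0

lemma TH_mul_TE : (TH : Matrix (Fin 10) (Fin 10) (SymF F)) * TE = 1 := by
  ext1 i j
  rw [Matrix.mul_apply, Matrix.one_apply]
  simp only [TH, TE, Matrix.of_apply]
  rw [Fin.sum_univ_eq_sum_range (n := 10) (fun k : ℕ => (hZ ((k : ℤ) - (i : ℤ)) : SymF F) *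
    (if k ≤ (j : ℕ) then (-1) ^ ((j : ℕ) - k) * esym ((j : ℕ) - k) else 0))]
  have hj := j.2
  have hi := i.2
  by_cases hij : (i : ℕ) ≤ j
  · have h := sum_e_h (F := F) ((j : ℕ) - i)
    have h1 : ∑ k ∈ Finset.range 10, (hZ ((k : ℤ) - (i : ℤ)) : SymF F) *
        (if k ≤ (j : ℕ) then (-1) ^ ((j : ℕ) - k) * esym ((j : ℕ) - k) else 0) =
        ∑ k ∈ Finset.Ico (i : ℕ) (j + 1), (-1) ^ ((j : ℕ) - k) * (esym ((j : ℕ) - k) : SymF F) *
          hsym (k - i) := by
      rw [← Finset.sum_subset (s₁ := Finset.Ico (i : ℕ) (j + 1)) (s₂ := Finset.range 10)]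
      · refine Finset.sum_congr rfl fun k hk => ?_
        rw [Finset.mem_Ico] at hk
        rw [if_pos (by omega), show ((k : ℤ) - (i : ℕ) : ℤ) = ((k - (i : ℕ) : ℕ) : ℤ) by omega,
          hZ_ofNat]
        ring
      · intro k hk
        rw [Finset.mem_Ico] at hk
        rw [Finset.mem_range]
        omega
      · intro k _ hk
        rw [Finset.mem_Ico] at hk
        by_cases hki : k < i
        · rw [hZ_neg (by omega), zero_mul]
        · rw [if_neg (by omega), mul_zero]
    rw [h1, Finset.sum_Ico_eq_sum_range, ← Finset.sum_range_reflect]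
    have h2 : (j : ℕ) + 1 - i = (j : ℕ) - i + 1 := by omega
    rw [h2]
    have h3 : (if i = j then (1 : SymF F) else 0) = if (j : ℕ) - i = 0 then 1 else 0 := by
      by_cases he : i = j
      · rw [if_pos he, if_pos (by rw [he]; omega)]
      · rw [if_neg he, if_neg]
        intro h0
        exact he (Fin.ext (by omega))
    rw [h3, ← h]
    refine Finset.sum_congr rfl fun k hk => ?_
    rw [Finset.mem_range] at hk
    rw [show (j : ℕ) - (i + ((j : ℕ) - i + 1 - 1 - k)) = k by omega,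
      show (i : ℕ) + ((j : ℕ) - i + 1 - 1 - k) - i = (j : ℕ) - i - k by omega]
  · rw [if_neg (by rintro rfl; exact hij le_rfl)]
    refine Finset.sum_eq_zero fun k _ => ?_
    by_cases hki : k < i
    · rw [hZ_neg (by omega), zero_mul]
    · rw [if_neg (by omega), mul_zero]

omit [CharZero F] in
lemma det_TH : (TH : Matrix (Fin 10) (Fin 10) (SymF F)).det = 1 := by
  rw [Matrix.det_of_isUpperTriangular]
  · refine Finset.prod_eq_one fun i _ => ?_
    simp only [TH, Matrix.of_apply]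
    rw [sub_self]
    have := hZ_ofNat (F := F) 0
    rw [hsym_zero] at this
    exact_mod_cast this
  · intro i j hij
    simp only [id] at hij
    simp only [TH, Matrix.of_apply]
    apply hZ_neg
    have : (j : ℕ) < i := hij
    omega

/-- row indexing -/
def rho : Fin 8 ⊕ Fin 2 ≃ Fin 10 := finSumFinEquiv

/-- column indexing -/
def sig : Fin 8 ⊕ Fin 2 ≃ Fin 10 := (Equiv.sumComm _ _).trans (finSumFinEquiv (m := 2) (n := 8))

lemma rho_symm_sig : (rho.symm.trans sig : Equiv.Perm (Fin 10)) =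
    finRotate 10 * finRotate 10 := by
  decide

omit [CharZero F] in
lemma det_TH_sub : ((TH : Matrix (Fin 10) (Fin 10) (SymF F)).submatrix rho sig).det = 1 := by
  have h1 : (TH : Matrix (Fin 10) (Fin 10) (SymF F)).submatrix rho sig =
      (TH.submatrix id (rho.symm.trans sig)).submatrix rho rho := by
    ext1 a b
    simp [Matrix.submatrix_apply]
  rw [h1, Matrix.det_submatrix_equiv_self, Matrix.det_permute', det_TH, rho_symm_sig,
    Equiv.Perm.sign_mul, Int.units_mul_self]
  simp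

lemma jacobiTrudi_two_eight :
    (jacobiTrudi (List.replicate 8 2) : SymF F) = esym 8 ^ 2 - esym 9 * esym 7 := by
  set M : Matrix (Fin 8 ⊕ Fin 2) (Fin 8 ⊕ Fin 2) (SymF F) := TH.submatrix rho sig with hM
  set N : Matrix (Fin 8 ⊕ Fin 2) (Fin 8 ⊕ Fin 2) (SymF F) := TE.submatrix sig rho with hN
  have hMN : M * N = 1 := by
    rw [hM, hN, Matrix.submatrix_mul_equiv, TH_mul_TE, Matrix.submatrix_one_equiv]
  have hA : M.toBlocks₁₁.det = (jacobiTrudi (List.replicate 8 2) : SymF F) := by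
    rw [jacobiTrudi]
    have hl : (List.replicate 8 2).length = 8 := by simp
    congr 1
    ext1 i j
    simp only [Matrix.toBlocks₁₁, Matrix.of_apply, hM, Matrix.submatrix_apply, TH]
    have h1 : ((rho (Sum.inl i) : Fin 10) : ℕ) = i := rfl
    have h2 : ((sig (Sum.inl j) : Fin 10) : ℕ) = 2 + j := rfl
    have hg : (List.replicate 8 2).get i = 2 := by
      rw [List.get_eq_getElem, List.getElem_replicate]
    rw [h1, h2, hg]
    congr 1
    push_cast
    ring
  have hD : N.toBlocks₂₂.det = (esym 8 ^ 2 - esym 9 * esym 7 : SymF F) := by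
    rw [Matrix.det_fin_two]
    simp only [Matrix.toBlocks₂₂, Matrix.of_apply, hN, Matrix.submatrix_apply, TE]
    have h0 : ((rho (Sum.inr 0) : Fin 10) : ℕ) = 8 := by rfl
    have h1 : ((rho (Sum.inr 1) : Fin 10) : ℕ) = 9 := by rfl
    have h2 : ((sig (Sum.inr 0) : Fin 10) : ℕ) = 0 := by rfl
    have h3 : ((sig (Sum.inr 1) : Fin 10) : ℕ) = 1 := by rfl
    rw [h0, h1, h2, h3]
    norm_num
    ring
  have hblock : M * Matrix.fromBlocks 1 N.toBlocks₁₂ 0 N.toBlocks₂₂ =
      Matrix.fromBlocks M.toBlocks₁₁ 0 M.toBlocks₂₁ 1 := by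
    have h1 : Matrix.fromBlocks M.toBlocks₁₁ M.toBlocks₁₂ M.toBlocks₂₁ M.toBlocks₂₂ *
        Matrix.fromBlocks N.toBlocks₁₁ N.toBlocks₁₂ N.toBlocks₂₁ N.toBlocks₂₂ = 1 := by
      rw [Matrix.fromBlocks_toBlocks, Matrix.fromBlocks_toBlocks, hMN]
    rw [Matrix.fromBlocks_multiply, ← Matrix.fromBlocks_one, Matrix.fromBlocks_inj] at h1
    conv_lhs => rw [← Matrix.fromBlocks_toBlocks M]
    rw [Matrix.fromBlocks_multiply, h1.2.1, h1.2.2.2]
    simp
  have hdet := congrArg Matrix.det hblock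
  rw [Matrix.det_mul, Matrix.det_fromBlocks_zero₂₁, Matrix.det_fromBlocks_zero₁₂, Matrix.det_one,
    Matrix.det_one, hM, det_TH_sub, one_mul, one_mul, mul_one] at hdet
  rw [← hA, ← hD]
  exact hdet.symm

/-! ### The images of the `e_k` in two variables -/

/-- `e_k` with `p_r ↦ θ (s^r + t^r)` -/
noncomputable def ee (θ : F) (k : ℕ) : MvPolynomial (Fin 2) F := inVars 2 (scale θ (esym k))

omit [CharZero F] in
lemma ee_zero (θ : F) : ee θ 0 = 1 := by rw [ee, esym_zero, map_one, map_one]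

lemma newton_ee (θ : F) (k : ℕ) : (C (k : F) : MvPolynomial (Fin 2) F) * ee θ k =
    C θ * ∑ i ∈ Finset.range k, (-1) ^ i * (X 0 ^ (i + 1) + X 1 ^ (i + 1)) *
      ee θ (k - 1 - i) := by
  have h := congrArg (fun f => inVars 2 (scale θ f)) (newton_e (F := F) k)
  simp only [map_mul, map_sum, inVars_scale_X, map_pow, map_neg, map_one] at h
  have h1 : scale θ (C (k : F) : SymF F) = C (k : F) := by
    rw [scale]; exact aeval_C _ _
  rw [h1, inVars_C] at h
  unfold ee
  rw [h, Finset.mul_sum]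
  refine Finset.sum_congr rfl fun i _ => ?_
  ring

lemma ee_rec (θ : F) (k : ℕ) : (C ((k : F) + 2) : MvPolynomial (Fin 2) F) * ee θ (k + 2) =
    C (θ - ((k : F) + 1)) * ((X 0 + X 1) * ee θ (k + 1)) +
      C (2 * θ - (k : F)) * ((X 0 * X 1) * ee θ k) := by
  have h2 := newton_ee θ (k + 2)
  have h1 := newton_ee θ (k + 1)
  have h0 := newton_ee θ k
  rw [Finset.sum_range_succ', Finset.sum_range_succ'] at h2
  rw [Finset.sum_range_succ'] at h1
  have e2 : ∀ i, ee θ (k + 2 - 1 - (i + 1 + 1)) = ee θ (k - 1 - i) := by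
    intro i; congr 1; omega
  have e1 : ∀ i, ee θ (k + 1 - 1 - (i + 1)) = ee θ (k - 1 - i) := by
    intro i; congr 1; omega
  simp only [e2] at h2
  simp only [e1] at h1
  rw [show k + 2 - 1 - (0 + 1) = k by omega, show k + 2 - 1 - 0 = k + 1 by omega] at h2
  rw [show k + 1 - 1 - 0 = k by omega] at h1
  have hS : ∑ i ∈ Finset.range k, (-1) ^ (i + 1 + 1) *
        ((X 0 ^ (i + 1 + 1 + 1) + X 1 ^ (i + 1 + 1 + 1) : MvPolynomial (Fin 2) F)) *
          ee θ (k - 1 - i) =
      - (X 0 + X 1) * ∑ i ∈ Finset.range k, (-1) ^ (i + 1) *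
        (X 0 ^ (i + 1 + 1) + X 1 ^ (i + 1 + 1)) * ee θ (k - 1 - i) -
      (X 0 * X 1) * ∑ i ∈ Finset.range k, (-1) ^ i * (X 0 ^ (i + 1) + X 1 ^ (i + 1)) *
          ee θ (k - 1 - i) := by
    rw [Finset.mul_sum, Finset.mul_sum, ← Finset.sum_sub_distrib]
    refine Finset.sum_congr rfl fun i _ => ?_
    ring
  rw [hS] at h2
  push_cast at h2 h1
  simp only [C_add, C_mul, C_sub] at *
  have hc : (C 2 : MvPolynomial (Fin 2) F) = 2 := rfl
  simp only [hc, C_1] at *
  linear_combination h2 + (X 0 + X 1) * h1 + (X 0 * X 1) * h0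

/-- `k! E_k` in the variable `u`, where `∑ E_k x^k = (1 + x u + x²)^θ` -/
noncomputable def Eh (θ : F) : ℕ → Polynomial F
  | 0 => 1
  | 1 => Polynomial.C θ * Polynomial.X
  | k + 2 => Polynomial.C (θ - ((k : F) + 1)) * (Polynomial.X * Eh θ (k + 1)) +
      Polynomial.C (((k : F) + 1) * (2 * θ - (k : F))) * Eh θ k

lemma act_ee (θ : F) (k : ℕ) : Act (C (k.factorial : F) * ee θ k) (Eh θ k) := by
  induction k using Nat.strong_induction_on with
  | _ k ih =>
    match k, ih with
    | 0, _ =>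
      rw [ee_zero, Eh]
      simp only [Nat.factorial_zero, Nat.cast_one, C_1, one_mul]
      exact Act.one
    | 1, _ =>
      have h := newton_ee θ 1
      simp only [Nat.cast_one, C_1, one_mul, Finset.range_one, Finset.sum_singleton, zero_add,
        pow_one, pow_zero] at h
      rw [Nat.factorial_one, Nat.cast_one, C_1, one_mul, h, Eh, show 1 - 1 - 0 = 0 by omega,
        ee_zero, mul_one]
      exact (Act.C θ).mul Act.e1
    | k + 2, ih =>
      have h1 : C (((k + 2).factorial : ℕ) : F) * ee θ (k + 2) =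
          C (θ - ((k : F) + 1)) * ((X 0 + X 1) * (C (((k + 1).factorial : ℕ) : F) * ee θ (k + 1))) +
            C (((k : F) + 1) * (2 * θ - (k : F))) *
              ((X 0 * X 1) * (C ((k.factorial : ℕ) : F) * ee θ k)) := by
        have hr := ee_rec θ k
        have hf1 : (((k + 2).factorial : ℕ) : F) = ((k + 1).factorial : F) * ((k : F) + 2) := by
          rw [Nat.factorial_succ]; push_cast; ring
        have hf2 : (((k + 1).factorial : ℕ) : F) = ((k : F) + 1) * (k.factorial : F) := by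
          rw [Nat.factorial_succ]; push_cast; ring
        rw [hf1, hf2]
        simp only [C_add, C_mul, C_sub] at *
        linear_combination ((C (k : F) + C 1) * C (k.factorial : F)) * hr
      rw [h1, Eh]
      refine ((Act.C _).mul (Act.e1.mul (ih (k + 1) (by omega)))).add ?_
      have := (Act.C (((k : F) + 1) * (2 * θ - (k : F)))).mul (Act.e2.mul (ih k (by omega)))
      rwa [one_mul] at this

lemma homog_ee (θ : F) (k : ℕ) : (ee θ k).IsHomogeneous k := by
  induction k using Nat.strong_induction_on with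
  | _ k ih =>
    rcases Nat.eq_zero_or_pos k with rfl | hk
    · rw [ee_zero]; exact isHomogeneous_one _ _
    · have hk0 : (k : F) ≠ 0 := by exact_mod_cast hk.ne'
      have h1 : ee θ k = C ((k : F)⁻¹) * (C θ * ∑ i ∈ Finset.range k,
          (-1) ^ i * (X 0 ^ (i + 1) + X 1 ^ (i + 1)) * ee θ (k - 1 - i)) := by
        rw [← newton_ee, ← mul_assoc, ← C_mul, inv_mul_cancel₀ hk0, C_1, one_mul]
      rw [h1]
      refine IsHomogeneous.C_mul (IsHomogeneous.C_mul (IsHomogeneous.sum _ _ _ fun i hi => ?_) _) _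
      rw [Finset.mem_range] at hi
      have h2 : ((X 0 : MvPolynomial (Fin 2) F) ^ (i + 1)).IsHomogeneous (i + 1) := by
        simpa using (isHomogeneous_X F (0 : Fin 2)).pow (i + 1)
      have h3 : ((X 1 : MvPolynomial (Fin 2) F) ^ (i + 1)).IsHomogeneous (i + 1) := by
        simpa using (isHomogeneous_X F (1 : Fin 2)).pow (i + 1)
      have h4 := (h2.add h3).mul (ih (k - 1 - i) (by omega))
      rw [show i + 1 + (k - 1 - i) = k by omega] at h4
      have h5 : ((-1 : MvPolynomial (Fin 2) F) ^ i) = C ((-1 : F) ^ i) := by simp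
      rw [h5, mul_assoc]
      exact h4.C_mul _

end Pool.Agent.Lib.MP_e60a9a_co
end

section

/-!
# The explicit polynomial
-/

namespace Pool.Agent.Lib.MP_e60a9a_co

open Polynomial

variable {F : Type} [Field F]

/-- the nonzero numbers `a_k / 2090188800` -/
def bco : Fin 16 → ℕ :=
  ![0, 286, 35038, 958976, 9240610, 38111080, 73942876, 70179928, 32657731, 7283070, 750200,
    32780, 385, 0, 0, 0]

lemma Eh_add_two (θ : F) (k : ℕ) : Eh θ (k + 2) = C (θ - ((k : F) + 1)) * (X * Eh θ (k + 1)) +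
      C (((k : F) + 1) * (2 * θ - (k : F))) * Eh θ k := by rw [Eh]

lemma Eh_zero (θ : F) : Eh θ 0 = 1 := by rw [Eh]

lemma Eh_one (θ : F) : Eh θ 1 = C θ * X := by rw [Eh]

lemma Eh_two (θ : F) : Eh θ 2 = C (θ * (θ - 1)) * X ^ 2 + C (2 * θ) := by
  have h := Eh_add_two θ 0
  rw [show 0 + 2 = 2 by rfl, show 0 + 1 = 1 by rfl] at h
  rw [h, Eh_zero, Eh_one]
  simp only [map_add, map_sub, map_mul, map_one, map_ofNat, Nat.cast_zero, zero_add,
    sub_zero, map_zero]
  ring

lemma Eh_three (θ : F) : Eh θ 3 = C (θ * (θ - 1) * (θ - 2)) * X ^ 3 + C (6 * (θ * (θ - 1))) * X := by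
  have h := Eh_add_two θ 1
  rw [show 1 + 2 = 3 by rfl, show 1 + 1 = 2 by rfl] at h
  rw [h, Eh_two, Eh_one]
  simp only [map_add, map_sub, map_mul, map_one, map_ofNat, Nat.cast_one]
  ring

lemma Eh_four (θ : F) : Eh θ 4 = C (θ * (θ - 1) * (θ - 2) * (θ - 3)) * X ^ 4 +
    C (12 * (θ * (θ - 1) * (θ - 2))) * X ^ 2 + C (12 * (θ * (θ - 1))) := by
  have h := Eh_add_two θ 2
  rw [show 2 + 2 = 4 by rfl, show 2 + 1 = 3 by rfl] at h
  rw [h, Eh_two, Eh_three]
  simp only [map_add, map_sub, map_mul, map_one, map_ofNat, Nat.cast_ofNat]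
  ring

lemma Eh_five (θ : F) : Eh θ 5 = C (θ * (θ - 1) * (θ - 2) * (θ - 3) * (θ - 4)) * X ^ 5 +
    C (20 * (θ * (θ - 1) * (θ - 2) * (θ - 3))) * X ^ 3 + C (60 * (θ * (θ - 1) * (θ - 2))) * X := by
  have h := Eh_add_two θ 3
  rw [show 3 + 2 = 5 by rfl, show 3 + 1 = 4 by rfl] at h
  rw [h, Eh_three, Eh_four]
  simp only [map_add, map_sub, map_mul, map_one, map_ofNat, Nat.cast_ofNat]
  ring

lemma Eh_six (θ : F) : Eh θ 6 = C (θ * (θ - 1) * (θ - 2) * (θ - 3) * (θ - 4) * (θ - 5)) * X ^ 6 +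
    C (30 * (θ * (θ - 1) * (θ - 2) * (θ - 3) * (θ - 4))) * X ^ 4 +
    C (180 * (θ * (θ - 1) * (θ - 2) * (θ - 3))) * X ^ 2 + C (120 * (θ * (θ - 1) * (θ - 2))) := by
  have h := Eh_add_two θ 4
  rw [show 4 + 2 = 6 by rfl, show 4 + 1 = 5 by rfl] at h
  rw [h, Eh_four, Eh_five]
  simp only [map_add, map_sub, map_mul, map_one, map_ofNat, Nat.cast_ofNat]
  ring

lemma Eh_seven (θ : F) : Eh θ 7 =
    C (θ * (θ - 1) * (θ - 2) * (θ - 3) * (θ - 4) * (θ - 5) * (θ - 6)) * X ^ 7 +
    C (42 * (θ * (θ - 1) * (θ - 2) * (θ - 3) * (θ - 4) * (θ - 5))) * X ^ 5 +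
    C (420 * (θ * (θ - 1) * (θ - 2) * (θ - 3) * (θ - 4))) * X ^ 3 +
    C (840 * (θ * (θ - 1) * (θ - 2) * (θ - 3))) * X := by
  have h := Eh_add_two θ 5
  rw [show 5 + 2 = 7 by rfl, show 5 + 1 = 6 by rfl] at h
  rw [h, Eh_five, Eh_six]
  simp only [map_add, map_sub, map_mul, map_one, map_ofNat, Nat.cast_ofNat]
  ring

lemma Eh_eight (θ : F) : Eh θ 8 =
    C (θ * (θ - 1) * (θ - 2) * (θ - 3) * (θ - 4) * (θ - 5) * (θ - 6) * (θ - 7)) * X ^ 8 +
    C (56 * (θ * (θ - 1) * (θ - 2) * (θ - 3) * (θ - 4) * (θ - 5) * (θ - 6))) * X ^ 6 +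
    C (840 * (θ * (θ - 1) * (θ - 2) * (θ - 3) * (θ - 4) * (θ - 5))) * X ^ 4 +
    C (3360 * (θ * (θ - 1) * (θ - 2) * (θ - 3) * (θ - 4))) * X ^ 2 +
    C (1680 * (θ * (θ - 1) * (θ - 2) * (θ - 3))) := by
  have h := Eh_add_two θ 6
  rw [show 6 + 2 = 8 by rfl, show 6 + 1 = 7 by rfl] at h
  rw [h, Eh_six, Eh_seven]
  simp only [map_add, map_sub, map_mul, map_one, map_ofNat, Nat.cast_ofNat]
  ring

lemma Eh_nine (θ : F) : Eh θ 9 =
    C (θ * (θ - 1) * (θ - 2) * (θ - 3) * (θ - 4) * (θ - 5) * (θ - 6) * (θ - 7) * (θ - 8)) * X ^ 9 +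
    C (72 * (θ * (θ - 1) * (θ - 2) * (θ - 3) * (θ - 4) * (θ - 5) * (θ - 6) * (θ - 7))) * X ^ 7 +
    C (1512 * (θ * (θ - 1) * (θ - 2) * (θ - 3) * (θ - 4) * (θ - 5) * (θ - 6))) * X ^ 5 +
    C (10080 * (θ * (θ - 1) * (θ - 2) * (θ - 3) * (θ - 4) * (θ - 5))) * X ^ 3 +
    C (15120 * (θ * (θ - 1) * (θ - 2) * (θ - 3) * (θ - 4))) * X := by
  have h := Eh_add_two θ 7
  rw [show 7 + 2 = 9 by rfl, show 7 + 1 = 8 by rfl] at h
  rw [h, Eh_seven, Eh_eight]
  simp only [map_add, map_sub, map_mul, map_one, map_ofNat, Nat.cast_ofNat]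
  ring

/-- expansion with abstract coefficients -/
lemma quad_expand (c0 c2 c4 c6 c8 d1 d3 d5 d7 f1 f3 f5 f7 f9 : F) :
    C 9 * (C c8 * X ^ 8 + C c6 * X ^ 6 + C c4 * X ^ 4 + C c2 * X ^ 2 + C c0) ^ 2 -
      C 8 * ((C f9 * X ^ 9 + C f7 * X ^ 7 + C f5 * X ^ 5 + C f3 * X ^ 3 + C f1 * X) *
        (C d7 * X ^ 7 + C d5 * X ^ 5 + C d3 * X ^ 3 + C d1 * X)) =
    C (9 * c8 ^ 2 - 8 * (f9 * d7)) * X ^ 16 +
    C (9 * (2 * c8 * c6) - 8 * (f9 * d5 + f7 * d7)) * X ^ 14 +
    C (9 * (2 * c8 * c4 + c6 ^ 2) - 8 * (f9 * d3 + f7 * d5 + f5 * d7)) * X ^ 12 +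
    C (9 * (2 * c8 * c2 + 2 * c6 * c4) - 8 * (f9 * d1 + f7 * d3 + f5 * d5 + f3 * d7)) * X ^ 10 +
    C (9 * (2 * c8 * c0 + 2 * c6 * c2 + c4 ^ 2) -
      8 * (f7 * d1 + f5 * d3 + f3 * d5 + f1 * d7)) * X ^ 8 +
    C (9 * (2 * c6 * c0 + 2 * c4 * c2) - 8 * (f5 * d1 + f3 * d3 + f1 * d5)) * X ^ 6 +
    C (9 * (2 * c4 * c0 + c2 ^ 2) - 8 * (f3 * d1 + f1 * d3)) * X ^ 4 +
    C (9 * (2 * c2 * c0) - 8 * (f1 * d1)) * X ^ 2 +
    C (9 * c0 ^ 2) * X ^ 0 := by
  simp only [map_add, map_sub, map_mul, map_pow, map_ofNat]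
  ring

variable [CharZero F]

lemma D_mom (θ : F) (hθ : ∀ j : ℕ, θ + 1 + j ≠ 0) :
    poch (θ + 1) 8 * mom θ 0 =
      (θ + 1) * (θ + 2) * (θ + 3) * (θ + 4) * (θ + 5) * (θ + 6) * (θ + 7) * (θ + 8) ∧
    poch (θ + 1) 8 * mom θ 2 =
      2 * ((θ + 2) * (θ + 3) * (θ + 4) * (θ + 5) * (θ + 6) * (θ + 7) * (θ + 8)) ∧
    poch (θ + 1) 8 * mom θ 4 =
      12 * ((θ + 3) * (θ + 4) * (θ + 5) * (θ + 6) * (θ + 7) * (θ + 8)) ∧
    poch (θ + 1) 8 * mom θ 6 = 120 * ((θ + 4) * (θ + 5) * (θ + 6) * (θ + 7) * (θ + 8)) ∧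
    poch (θ + 1) 8 * mom θ 8 = 1680 * ((θ + 5) * (θ + 6) * (θ + 7) * (θ + 8)) ∧
    poch (θ + 1) 8 * mom θ 10 = 30240 * ((θ + 6) * (θ + 7) * (θ + 8)) ∧
    poch (θ + 1) 8 * mom θ 12 = 665280 * ((θ + 7) * (θ + 8)) ∧
    poch (θ + 1) 8 * mom θ 14 = 17297280 * (θ + 8) ∧
    poch (θ + 1) 8 * mom θ 16 = 518918400 := by
  have h0 := hθ 0
  have h1 := hθ 1
  have h2 := hθ 2
  have h3 := hθ 3
  have h4 := hθ 4
  have h5 := hθ 5
  have h6 := hθ 6
  have h7 := hθ 7
  push_cast at h0 h1 h2 h3 h4 h5 h6 h7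
  have q : poch (θ + 1) 8 = (θ + 1 + 0) * (θ + 1 + 1) * (θ + 1 + 2) * (θ + 1 + 3) * (θ + 1 + 4) *
      (θ + 1 + 5) * (θ + 1 + 6) * (θ + 1 + 7) := by
    simp [poch, Finset.prod_range_succ]
  refine ⟨?_, ?_, ?_, ?_, ?_, ?_, ?_, ?_, ?_⟩ <;>
  · rw [q]
    simp only [mom, poch, Finset.prod_range_succ, Finset.prod_range_zero, Nat.factorial]
    norm_num
    norm_num at h0 h1 h2 h3 h4 h5 h6 h7
    field_simp
    ring

/-- The closed form: the value of the functional. -/
lemma Lf_value (θ : F) (hθ : ∀ j : ℕ, θ + 1 + j ≠ 0) :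
    poch (θ + 1) 8 * Lf θ (C 9 * Eh θ 8 ^ 2 - C 8 * (Eh θ 9 * Eh θ 7)) =
      (Nat.factorial 9 : F) * ∑ k : Fin 16, (2090188800 * (bco k : F)) * binom (θ + (k : ℕ)) 16 := by
  obtain ⟨m0, m2, m4, m6, m8, m10, m12, m14, m16⟩ := D_mom θ hθ
  rw [Eh_seven, Eh_eight, Eh_nine, quad_expand]
  simp only [map_add, Lf_C_mul, Lf_X_pow]
  simp only [mul_add]
  simp only [mul_left_comm (poch (θ + 1) 8)]
  rw [m0, m2, m4, m6, m8, m10, m12, m14, m16]
  simp only [Fin.sum_univ_succ, Fin.sum_univ_zero, binom, Fin.prod_univ_succ, Fin.prod_univ_zero,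
    bco, Nat.factorial]
  norm_num [Fin.succ]
  ring

end Pool.Agent.Lib.MP_e60a9a_co
end

section

/-!
# The Jack polynomial of `(8, 8)` and the Schur function of `(2⁸)`
-/

namespace Pool.Agent.Lib.MP_e60a9a_co

open MvPolynomial

variable {F : Type} [Field F]

lemma rows_eq_replicate {n : ℕ} (μ : n.Partition) (k a : ℕ)
    (h : μ.parts = Multiset.replicate k a) : rows μ = List.replicate k a := by
  rw [List.eq_replicate_iff]
  unfold rows
  constructor
  · rw [Multiset.length_sort, h, Multiset.card_replicate]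
  · intro b hb
    rw [Multiset.mem_sort, h] at hb
    exact Multiset.eq_of_mem_replicate hb

lemma take_sum_le (l : List ℕ) (k : ℕ) (b : ℕ) (h : ∀ x ∈ l, x ≤ b) :
    (l.take k).sum ≤ k * b := by
  calc (l.take k).sum ≤ (l.take k).length * b := by
        have := List.sum_le_card_nsmul (l.take k) b (fun x hx => h x (List.mem_of_mem_take hx))
        simpa using this
    _ ≤ k * b := Nat.mul_le_mul_right b (by simp)

lemma take_sum_le_sum (l : List ℕ) (k : ℕ) : (l.take k).sum ≤ l.sum := by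
  conv_rhs => rw [← List.take_append_drop k l, List.sum_append]
  omega

lemma domLE_iff (μ : (16 : ℕ).Partition) (hμ : μ.parts = Multiset.replicate 2 8)
    (ν : (16 : ℕ).Partition) : DomLE ν μ ↔ ∀ x ∈ ν.parts, x ≤ 8 := by
  have hr := rows_eq_replicate μ 2 8 hμ
  constructor
  · intro h x hx
    have h1 := h 1
    rw [hr] at h1
    have hx' : x ∈ rows ν := by
      unfold rows
      rwa [Multiset.mem_sort]
    have hs : (rows ν).Pairwise (· ≥ ·) := by
      unfold rows
      exact Multiset.pairwise_sort _ _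
    cases hl : rows ν with
    | nil => rw [hl] at hx'; simp at hx'
    | cons a l =>
      rw [hl] at hx' hs h1
      have ha : a ≤ 8 := by simpa using h1
      rcases List.mem_cons.mp hx' with rfl | hxl
      · exact ha
      · exact (List.rel_of_pairwise_cons hs hxl).trans ha
  · intro h k
    rw [hr]
    have h1 : ((rows ν).take k).sum ≤ k * 8 := by
      apply take_sum_le
      intro x hx
      apply h
      unfold rows at hx
      rwa [Multiset.mem_sort] at hx
    have h2 : ((rows ν).take k).sum ≤ 16 := by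
      have := take_sum_le_sum (rows ν) k
      rwa [rows_sum] at this
    rw [List.take_replicate, List.sum_replicate, smul_eq_mul]
    omega

variable [CharZero F]

/-- the norm -/
noncomputable def kap (θ : F) : F := Lf θ (geg θ 8 * geg θ 8)

lemma kap_eq (θ : F) (hθ : ∀ j : ℕ, θ + 1 + j ≠ 0) : kap θ =
    poch θ 8 * poch (2 * θ) 8 / ((Nat.factorial 8 : F) * poch (θ + 1) 8) := by
  rw [kap, Lf_geg_sq θ hθ]

/-- the Jack polynomial -/
noncomputable def P0 (θ : F) : SymF F := C (kap θ)⁻¹ * GG θ 16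

lemma comb_P0 (θ β : F) (hβ : β * θ = 1) : IsComb (P0 θ)
    (fun ν : (16 : ℕ).Partition => (kap θ)⁻¹ * Lf θ ((ν.parts.map (geg θ)).prod)) := by
  intro N
  ext d
  rw [P0, map_mul, inVars_C, coeff_C_mul, coeff_GG θ β hβ, coeff_comb]
  by_cases h : ∑ a, d a = 16
  · rw [if_pos h, dif_pos h, prod_parts_typ d h (geg θ) (geg_zero θ)]
  · rw [if_neg h, dif_neg h, mul_zero]

omit [CharZero F] in
lemma natDegree_prod_le (θ : F) (s : Multiset ℕ) :
    ((s.map (geg θ)).prod).natDegree ≤ s.sum := by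
  induction s using Multiset.induction_on with
  | empty => simp
  | cons a s ih =>
    rw [Multiset.map_cons, Multiset.prod_cons, Multiset.sum_cons]
    exact Polynomial.natDegree_mul_le.trans (Nat.add_le_add (natDegree_geg_le θ a) ih)

lemma Lf_prod_eq_zero (θ : F) (hθ : ∀ j : ℕ, θ + 1 + j ≠ 0) (ν : (16 : ℕ).Partition)
    (x : ℕ) (hx : x ∈ ν.parts) (h8 : 8 < x) : Lf θ ((ν.parts.map (geg θ)).prod) = 0 := by
  obtain ⟨t, ht⟩ := Multiset.exists_cons_of_mem hx
  rw [ht, Multiset.map_cons, Multiset.prod_cons]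
  apply Lf_geg_mul_eq_zero θ hθ
  have h1 := natDegree_prod_le θ t
  have h2 := ν.parts_sum
  rw [ht, Multiset.sum_cons] at h2
  omega

lemma isJack_P0 (θ β : F) (hβ : β * θ = 1) (hθ : ∀ j : ℕ, θ + 1 + j ≠ 0) (hk : kap θ ≠ 0)
    (μ : (16 : ℕ).Partition) (hμ : μ.parts = Multiset.replicate 2 8) : IsJack β μ (P0 θ) := by
  constructor
  · refine ⟨_, comb_P0 θ β hβ, ?_, ?_⟩
    · simp only [hμ, Multiset.map_replicate, Multiset.prod_replicate]
      rw [pow_two, ← kap, inv_mul_cancel₀ hk]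
    · intro ν hν
      rw [domLE_iff μ hμ]
      intro x hx
      by_contra hx8
      apply hν
      rw [Lf_prod_eq_zero θ hθ ν x hx (by omega), mul_zero]
  · rintro f ⟨c, hc, h0, hle⟩
    rw [P0, pair_C_mul_left, pair_GG θ β hβ, hc 2]
    rw [Finset.sum_eq_zero, mul_zero]
    intro i hi
    rw [Finset.mem_range] at hi
    rw [coeff_comb]
    have hs : ∑ a, (d2 i (16 - i)) a = 16 := by
      rw [Fin.sum_univ_two, d2_zero, d2_one]
      omega
    rw [dif_pos hs]
    have hcz : c (typ (d2 i (16 - i)) hs) = 0 := by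
      by_contra hcn
      have h1 := hle _ hcn
      rw [domLE_iff μ hμ] at h1
      have hi8 : i = 8 := by
        by_contra hne
        rcases lt_or_gt_of_ne hne with h | h
        · have h2 := h1 (16 - i) ((mem_parts_typ _ hs _).mpr ⟨1, by rw [d2_one], by omega⟩)
          omega
        · have h2 := h1 i ((mem_parts_typ _ hs _).mpr ⟨0, by rw [d2_zero], by omega⟩)
          omega
      subst hi8
      apply hcn
      rw [← h0]
      congr 1
      apply DomLE.antisymm
      · rw [domLE_iff μ hμ]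
        exact h1
      · intro k
        rw [rows_eq_replicate μ 2 8 hμ]
        have hparts : (typ (d2 8 (16 - 8)) hs).parts = Multiset.replicate 2 8 := by
          have hq : (typ (d2 8 (16 - 8)) hs).parts =
              (d2 8 (16 - 8)).support.val.map (d2 8 (16 - 8)) := by
            unfold typ Nat.Partition.ofSym
            simp only
            rw [← Multiset.toFinset_val, Finsupp.toFinset_toMultiset]
            refine Multiset.map_congr rfl fun a _ => ?_
            rw [Finsupp.count_toMultiset]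
          rw [hq]
          have hsup : (d2 8 (16 - 8)).support = Finset.univ := by
            ext a
            fin_cases a <;> simp
          rw [hsup]
          rfl
        rw [rows_eq_replicate _ 2 8 hparts]
    rw [hcz, mul_zero]

/-! ### The hook product -/

omit [CharZero F] in
lemma hook_eq (θ : F) (hθ0 : θ ≠ 0) :
    θ ^ 16 * hookProdL θ⁻¹ (List.replicate 2 8) = poch (2 * θ) 8 * poch θ 8 := by
  have h1 : hookProdL θ⁻¹ (List.replicate 2 8) =
      ((θ⁻¹ * 7 + 1 + 1) * (θ⁻¹ * 6 + 1 + 1) * (θ⁻¹ * 5 + 1 + 1) * (θ⁻¹ * 4 + 1 + 1) *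
        (θ⁻¹ * 3 + 1 + 1) * (θ⁻¹ * 2 + 1 + 1) * (θ⁻¹ * 1 + 1 + 1) * (θ⁻¹ * 0 + 1 + 1)) *
      ((θ⁻¹ * 7 + 0 + 1) * (θ⁻¹ * 6 + 0 + 1) * (θ⁻¹ * 5 + 0 + 1) * (θ⁻¹ * 4 + 0 + 1) *
        (θ⁻¹ * 3 + 0 + 1) * (θ⁻¹ * 2 + 0 + 1) * (θ⁻¹ * 1 + 0 + 1) * (θ⁻¹ * 0 + 0 + 1)) := by
    refine (Fin.prod_univ_two _).trans ?_
    congr 1
    · refine (Fin.prod_univ_eight _).trans ?_
      simp
    · refine (Fin.prod_univ_eight _).trans ?_
      simp
  rw [h1]
  simp only [poch, Finset.prod_range_succ, Finset.prod_range_zero]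
  push_cast
  field_simp
  ring

/-! ### The Schur coefficient -/

lemma homog_JT (θ : F) :
    (inVars 2 (scale θ (esym 8 ^ 2 - esym 9 * esym 7 : SymF F))).IsHomogeneous 16 := by
  have h : inVars 2 (scale θ (esym 8 ^ 2 - esym 9 * esym 7 : SymF F)) =
      ee θ 8 ^ 2 - ee θ 9 * ee θ 7 := by
    simp only [map_sub, map_mul, map_pow]
    rfl
  rw [h]
  refine IsHomogeneous.sub ?_ ?_
  · exact (homog_ee θ 8).pow 2
  · exact (homog_ee θ 9).mul (homog_ee θ 7)

lemma pair_P0 (θ β : F) (hβ : β * θ = 1) (hθ : ∀ j : ℕ, θ + 1 + j ≠ 0) (hk : kap θ ≠ 0)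
    (μ : (16 : ℕ).Partition) (hμ : μ.parts = Multiset.replicate 2 8)
    (lam : (16 : ℕ).Partition) (hlam : lam.parts = Multiset.replicate 8 2) :
    pair 1 (Jtilde θ μ (P0 θ)) (schur lam) =
      ∑ k : Fin 16, (2090188800 * (bco k : F)) * binom (θ + (k : ℕ)) 16 := by
  have hθ0 : θ ≠ 0 := right_ne_zero_of_mul_eq_one hβ
  have hp : poch (θ + 1) 8 ≠ 0 := poch_ne hθ 8
  have hk2 := hk
  rw [kap_eq θ hθ] at hk2
  have hpp : poch θ 8 * poch (2 * θ) 8 ≠ 0 := by
    intro h0
    apply hk2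
    rw [h0, zero_div]
  have h8 := fac_ne (F := F) 8
  have h9 := fac_ne (F := F) 9
  rw [schur, rows_eq_replicate lam 8 2 hlam, jacobiTrudi_two_eight, Jtilde, hookProd,
    rows_eq_replicate μ 2 8 hμ, hook_eq θ hθ0, pair_C_mul_left, P0, pair_C_mul_left,
    pair_one_GG θ β hβ 16 _ (homog_JT θ)]
  have hee : inVars 2 (scale θ (esym 8 ^ 2 - esym 9 * esym 7 : SymF F)) =
      ee θ 8 ^ 2 - ee θ 9 * ee θ 7 := by
    simp only [map_sub, map_mul, map_pow]
    rfl
  rw [hee]
  -- the action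
  have hact : Act (C ((Nat.factorial 9 : F) * (Nat.factorial 8 : F)) *
      (ee θ 8 ^ 2 - ee θ 9 * ee θ 7))
      (Polynomial.C 9 * Eh θ 8 ^ 2 - Polynomial.C 8 * (Eh θ 9 * Eh θ 7)) := by
    have h1 : C ((Nat.factorial 9 : F) * (Nat.factorial 8 : F)) *
        (ee θ 8 ^ 2 - ee θ 9 * ee θ 7) =
        C 9 * ((C (Nat.factorial 8 : F) * ee θ 8) * (C (Nat.factorial 8 : F) * ee θ 8)) -
        C 8 * ((C (Nat.factorial 9 : F) * ee θ 9) * (C (Nat.factorial 7 : F) * ee θ 7)) := by
      have c1 : (C ((Nat.factorial 9 : F) * (Nat.factorial 8 : F)) : MvPolynomial (Fin 2) F) =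
          C 9 * C (Nat.factorial 8 : F) * C (Nat.factorial 8 : F) := by
        rw [← C_mul, ← C_mul]
        congr 1
        norm_num [Nat.factorial]
      have c2 : (C ((Nat.factorial 9 : F) * (Nat.factorial 8 : F)) : MvPolynomial (Fin 2) F) =
          C 8 * C (Nat.factorial 9 : F) * C (Nat.factorial 7 : F) := by
        rw [← C_mul, ← C_mul]
        congr 1
        norm_num [Nat.factorial]
      linear_combination (ee θ 8 ^ 2) * c1 - (ee θ 9 * ee θ 7) * c2
    rw [h1, pow_two]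
    exact Act.sub ((Act.C 9).mul ((act_ee θ 8).mul (act_ee θ 8)))
      ((Act.C 8).mul ((act_ee θ 9).mul (act_ee θ 7)))
  have hL := L2_act θ hact
  rw [← smul_eq_C_mul, map_smul, smul_eq_mul] at hL
  have hval := Lf_value θ hθ
  rw [← hL] at hval
  have hkap : (kap θ)⁻¹ = ((Nat.factorial 8 : F) * poch (θ + 1) 8) /
      (poch θ 8 * poch (2 * θ) 8) := by
    rw [kap_eq θ hθ, inv_div]
  rw [hkap]
  have hfin : poch (2 * θ) 8 * poch θ 8 * ((Nat.factorial 8 : F) * poch (θ + 1) 8 /
      (poch θ 8 * poch (2 * θ) 8) * L2 θ (ee θ 8 ^ 2 - ee θ 9 * ee θ 7)) =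
      (Nat.factorial 9 : F)⁻¹ * (poch (θ + 1) 8 * ((Nat.factorial 9 : F) *
        (Nat.factorial 8 : F) * L2 θ (ee θ 8 ^ 2 - ee θ 9 * ee θ 7))) := by
    rw [mul_comm (poch (2 * θ) 8) (poch θ 8)]
    generalize poch θ 8 * poch (2 * θ) 8 = w at hpp
    generalize poch (θ + 1) 8 = v
    field_simp
  rw [hfin, hval, ← mul_assoc, inv_mul_cancel₀ h9, one_mul]

end Pool.Agent.Lib.MP_e60a9a_co
end

section

/-!
# The non-real zero, uniqueness of the coordinates, the field `ℚ(α)`
-/

namespace Pool.Agent.Lib.MP_e60a9a_co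

open Polynomial

/-- Laguerre's inequality for real polynomials with only real zeros. -/
lemma laguerre_ineq (n : ℕ) : ∀ p : ℝ[X], p.natDegree = n →
    (∀ z : ℂ, aeval z p = 0 → z.im = 0) → ∀ x : ℝ,
      p.eval x * (derivative (derivative p)).eval x ≤ ((derivative p).eval x) ^ 2 := by
  induction n with
  | zero =>
    intro p hp _ x
    rw [Polynomial.natDegree_eq_zero] at hp
    obtain ⟨c, rfl⟩ := hp
    simp
  | succ n ih =>
    intro p hp hz x
    have hp0 : p ≠ 0 := by
      rintro rfl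
      simp at hp
    have hdeg : (p.map (algebraMap ℝ ℂ)).degree ≠ 0 := by
      rw [Polynomial.degree_map]
      rw [Polynomial.degree_eq_natDegree hp0, hp]
      exact_mod_cast Nat.succ_ne_zero n
    obtain ⟨z, hzr⟩ := IsAlgClosed.exists_root (p.map (algebraMap ℝ ℂ)) hdeg
    have hzr' : aeval z p = 0 := by
      rwa [Polynomial.IsRoot, Polynomial.eval_map_algebraMap] at hzr
    have hzi := hz z hzr'
    obtain ⟨r, rfl⟩ : ∃ r : ℝ, z = (r : ℂ) := ⟨z.re, by
      apply Complex.ext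
      · simp
      · simpa using hzi⟩
    have hr : p.eval r = 0 := by
      have h1 : aeval (r : ℂ) p = ((p.eval r : ℝ) : ℂ) := by
        rw [Polynomial.aeval_def, Polynomial.eval₂_eq_eval_map]
        have := Polynomial.eval_map_apply (algebraMap ℝ ℂ) (p := p) r
        simpa using this
      rw [h1] at hzr'
      exact_mod_cast hzr'
    obtain ⟨q, rfl⟩ := Polynomial.dvd_iff_isRoot.mpr hr
    have hq0 : q ≠ 0 := right_ne_zero_of_mul hp0
    have hqd : q.natDegree = n := by
      rw [Polynomial.natDegree_mul (Polynomial.X_sub_C_ne_zero r) hq0,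
        Polynomial.natDegree_X_sub_C] at hp
      omega
    have h := ih q hqd (fun z hz' => hz z (by rw [map_mul, hz', mul_zero])) x
    have hd : derivative ((X - C r) * q) = q + (X - C r) * derivative q := by
      rw [derivative_mul]
      simp
    have hd2 : derivative (derivative ((X - C r) * q)) =
        2 * derivative q + (X - C r) * derivative (derivative q) := by
      rw [hd, derivative_add, derivative_mul]
      simp
      ring
    rw [hd2, hd]
    simp only [eval_add, eval_mul, eval_sub, eval_X, eval_C, eval_ofNat]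
    nlinarith [mul_nonneg (sq_nonneg (x - r)) (sub_nonneg.mpr h), sq_nonneg (eval x q)]

lemma exists_nonreal : ∃ z : ℂ, z.im ≠ 0 ∧
    ∑ k : Fin 16, ((2090188800 * (bco k : ℚ) : ℚ) : ℂ) * z ^ (k : ℕ) = 0 := by
  set q : ℝ[X] := ∑ k : Fin 16, C (bco k : ℝ) * X ^ (k : ℕ) with hq
  by_contra hcon
  push Not at hcon
  have h := laguerre_ineq q.natDegree q rfl (fun z hz => by
    by_contra hi
    apply hcon z hi
    have h1 : aeval z q = ∑ k : Fin 16, (bco k : ℂ) * z ^ (k : ℕ) := by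
      rw [hq, map_sum]
      refine Finset.sum_congr rfl fun k _ => ?_
      rw [map_mul, map_pow, aeval_X, aeval_C]
      simp
    rw [h1] at hz
    have h2 : ∑ k : Fin 16, ((2090188800 * (bco k : ℚ) : ℚ) : ℂ) * z ^ (k : ℕ) =
        2090188800 * ∑ k : Fin 16, (bco k : ℂ) * z ^ (k : ℕ) := by
      rw [Finset.mul_sum]
      refine Finset.sum_congr rfl fun k _ => ?_
      push_cast
      ring
    rw [h2, hz, mul_zero]) (-10)
  have e0 : q.eval (-10) = -39872961375060 := by
    simp only [hq, Fin.sum_univ_succ, Fin.sum_univ_zero, bco]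
    norm_num [Fin.succ]
  have e1 : (derivative q).eval (-10) = 32707168952326 := by
    simp only [hq, Fin.sum_univ_succ, Fin.sum_univ_zero, bco]
    norm_num [Fin.succ]
  have e2 : (derivative (derivative q)).eval (-10) = -34101489136484 := by
    simp only [hq, Fin.sum_univ_succ, Fin.sum_univ_zero, bco]
    norm_num [Fin.succ]
  rw [e0, e1, e2] at h
  norm_num at h

/-- `binom (X + k) 16` as a polynomial -/
noncomputable def Bp (k : ℕ) : ℚ[X] :=
  C ((Nat.factorial 16 : ℚ)⁻¹) * ∏ i : Fin 16, (X + C (k : ℚ) - C ((i : ℕ) : ℚ))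

lemma binom_eq (k : ℕ) : binom (RatFunc.X + (k : RatFunc ℚ)) 16 =
    algebraMap ℚ[X] (RatFunc ℚ) (Bp k) := by
  rw [binom, Bp, map_mul, map_prod, div_eq_mul_inv, mul_comm]
  congr 1
  · rw [RatFunc.algebraMap_C, map_inv₀, map_natCast]
  · refine Finset.prod_congr rfl fun i _ => ?_
    simp

lemma coords_unique (a b : Fin 16 → ℚ)
    (h : ∑ k : Fin 16, RatFunc.C (a k) * binom (RatFunc.X + ((k : ℕ) : RatFunc ℚ)) 16 =
      ∑ k : Fin 16, RatFunc.C (b k) * binom (RatFunc.X + ((k : ℕ) : RatFunc ℚ)) 16) : a = b := by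
  have h1 : ∑ k : Fin 16, C (a k) * Bp k = ∑ k : Fin 16, C (b k) * Bp k := by
    apply RatFunc.algebraMap_injective ℚ
    rw [map_sum, map_sum]
    simp only [map_mul, RatFunc.algebraMap_C]
    simp only [binom_eq] at h
    exact h
  have hB : ∀ m k : ℕ, m < k → k < 16 → (Bp k).eval (-1 - (m : ℚ)) = 0 := by
    intro m k hmk hk
    rw [Bp, eval_mul, eval_prod]
    have : ∏ i : Fin 16, eval (-1 - (m : ℚ)) (X + C (k : ℚ) - C ((i : ℕ) : ℚ)) = 0 := by
      apply Finset.prod_eq_zero (Finset.mem_univ (⟨k - 1 - m, by omega⟩ : Fin 16))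
      have : ((k - 1 - m : ℕ) : ℚ) = (k : ℚ) - 1 - m := by
        rw [Nat.cast_sub (by omega), Nat.cast_sub (by omega)]
        simp
      simp only [eval_sub, eval_add, eval_X, eval_C]
      rw [this]
      ring
    rw [this, mul_zero]
  have hB1 : ∀ k : ℕ, (Bp k).eval (-1 - (k : ℚ)) ≠ 0 := by
    intro k
    rw [Bp, eval_mul, eval_prod]
    apply mul_ne_zero
    · rw [eval_C]
      exact inv_ne_zero (fac_ne 16)
    · rw [Finset.prod_ne_zero_iff]
      intro i _
      simp only [eval_sub, eval_add, eval_X, eval_C]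
      have : (0 : ℚ) ≤ ((i : ℕ) : ℚ) := Nat.cast_nonneg _
      intro h0
      linarith
  have key : ∀ n : ℕ, ∀ hn : n < 16, a ⟨n, hn⟩ = b ⟨n, hn⟩ := by
    intro n
    induction n using Nat.strong_induction_on with
    | _ n ih =>
      intro hn
      have h2 := congrArg (Polynomial.eval (-1 - (n : ℚ))) h1
      rw [eval_finsetSum, eval_finsetSum, ← sub_eq_zero, ← Finset.sum_sub_distrib] at h2
      rw [Finset.sum_eq_single (⟨n, hn⟩ : Fin 16)] at h2
      · rw [eval_mul, eval_mul, eval_C, eval_C, ← sub_mul] at h2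
        have h3 := (mul_eq_zero.mp h2).resolve_right (hB1 n)
        exact sub_eq_zero.mp h3
      · intro k _ hk
        rw [eval_mul, eval_mul, eval_C, eval_C]
        rcases lt_trichotomy (k : ℕ) n with h3 | h3 | h3
        · rw [ih k h3 k.2]
          ring
        · exact absurd (Fin.ext h3) hk
        · rw [hB n k h3 k.2]
          ring
      · intro h3
        exact absurd (Finset.mem_univ _) h3
  funext k
  exact key k k.2

/-- an embedding of `ℚ(α)` into the reals with `α` positive -/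
lemma exists_embedding : ∃ ι : RatFunc ℚ →+* ℝ, 0 < ι RatFunc.X := by
  have ht : Transcendental ℚ (liouvilleNumber (2 : ℕ)) := by
    have h := transcendental_liouvilleNumber (m := 2) le_rfl
    intro h'
    exact h ((IsFractionRing.isAlgebraic_iff ℤ ℚ ℝ).mpr h')
  have hpos : 0 < liouvilleNumber ((2 : ℕ) : ℝ) := by
    have h1 := LiouvilleNumber.partialSum_add_remainder (m := ((2 : ℕ) : ℝ)) (by norm_num) 0
    have h2 := LiouvilleNumber.remainder_pos (m := ((2 : ℕ) : ℝ)) (by norm_num) 0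
    have h3 : 0 ≤ LiouvilleNumber.partialSum ((2 : ℕ) : ℝ) 0 := by
      unfold LiouvilleNumber.partialSum
      positivity
    linarith
  set τ := liouvilleNumber ((2 : ℕ) : ℝ) with hτ
  have hinj : Function.Injective (aeval (R := ℚ) τ) := transcendental_iff_injective.mp ht
  refine ⟨RatFunc.liftRingHom (aeval (R := ℚ) τ).toRingHom
    (nonZeroDivisors_le_comap_nonZeroDivisors_of_injective _ hinj), ?_⟩
  have : RatFunc.liftRingHom (aeval (R := ℚ) τ).toRingHom
    (nonZeroDivisors_le_comap_nonZeroDivisors_of_injective _ hinj) RatFunc.X = τ := by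
    rw [← RatFunc.algebraMap_X, RatFunc.liftRingHom_algebraMap]
    simp
  rw [this]
  exact hpos

end Pool.Agent.Lib.MP_e60a9a_co
end

section

/-!
# Sanity checks for the definitions
-/

namespace Pool.Agent.Lib.MP_e60a9a_co

open MvPolynomial

variable {F : Type} [Field F]

lemma coeff_hsymm {N : ℕ} (k : ℕ) (d : Fin N →₀ ℕ) :
    coeff d (hsymm (Fin N) F k) = if ∑ a, d a = k then 1 else 0 := by
  classical
  rw [hsymm, coeff_sum]
  have h1 : ∀ s : Sym (Fin N) k,
      coeff d ((s.1.map (X : Fin N → MvPolynomial (Fin N) F)).prod) =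
        if Multiset.toFinsupp s.1 = d then 1 else 0 := by
    intro s
    rw [prod_map_X, coeff_monomial]
  rw [Finset.sum_congr rfl fun s _ => h1 s]
  by_cases h : ∑ a, d a = k
  · rw [if_pos h]
    obtain ⟨s0, hs0⟩ : ∃ s0 : Sym (Fin N) k, s0.1 = Finsupp.toMultiset d :=
      ⟨Sym.mk (Finsupp.toMultiset d) (by rw [card_toMultiset', h]), rfl⟩
    have hs : ∀ s : Sym (Fin N) k, Multiset.toFinsupp s.1 = d ↔ s = s0 := by
      intro s
      rw [Multiset.toFinsupp_eq_iff, ← hs0]
      exact ⟨fun h' => Subtype.ext h', fun h' => by rw [h']⟩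
    simp only [hs]
    simp
  · rw [if_neg h]
    refine Finset.sum_eq_zero fun s _ => ?_
    rw [if_neg]
    intro hs
    apply h
    rw [Multiset.toFinsupp_eq_iff] at hs
    rw [← card_toMultiset', ← hs]
    exact s.2

variable [CharZero F]

/-- `hsym k` is the complete homogeneous symmetric polynomial in every number of variables. -/
lemma inVars_hsym (N k : ℕ) : inVars N (hsym k : SymF F) = hsymm (Fin N) F k := by
  ext d
  rw [coeff_inVars, coeff_hsymm]
  have h1 : pair 1 (hsym k : SymF F) (hprod d) =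
      coeff (Finsupp.single (0 : Fin 1) k) (inVars 1 (hprod d : SymF F)) := by
    rw [coeff_inVars, pair_comm]
    congr 1
    rw [hprod, Fin.prod_univ_one, Finsupp.single_eq_same]
  rw [h1, hprod, map_prod]
  simp only [inVars_one_hsym]
  rw [Finset.prod_pow_eq_pow_sum, coeff_X_pow]
  by_cases h : ∑ a, d a = k
  · rw [if_pos h, if_pos (by rw [h])]
  · rw [if_neg h, if_neg]
    intro h2
    exact h (Finsupp.single_injective _ h2)

end Pool.Agent.Lib.MP_e60a9a_co
end
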